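import Mathlib

/-! The energy of the fractions `(n + h) / u`. -/

set_option autoImplicit false

namespace Pool.Agent.H36.QI

open Finset

/-- the pairs with equal fractions -/
def TT (N u u₁ : ℕ) : Finset (ℕ × ℕ) :=
  (range N ×ˢ range N).filter fun z => z.1 * u₁ = z.2 * u

theorem fiber_le (N u u₁ : ℕ) (hu : 1 ≤ u) (hu₁ : 1 ≤ u₁) (k : ℤ) :
    ((range N ×ˢ range N).filter fun z : ℕ × ℕ => ((z.1 : ℤ) * u₁ - z.2 * u = k)).card ≤
      (TT N u u₁).card := by
  classical
  set G := (range N ×ˢ range N).filter fun z : ℕ × ℕ => ((z.1 : ℤ) * u₁ - z.2 * u = k) with hG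
  rcases G.eq_empty_or_nonempty with h0 | h0
  · rw [h0]
    simp
  · obtain ⟨m, hm, hmin⟩ := Finset.exists_min_image G (fun z => z.1) h0
    have hm' := hm
    rw [hG, mem_filter, mem_product, mem_range, mem_range] at hm'
    have key : ∀ z ∈ G, m.1 ≤ z.1 ∧ m.2 ≤ z.2 := by
      intro z hz
      have h1 : m.1 ≤ z.1 := hmin z hz
      refine ⟨h1, ?_⟩
      rw [hG, mem_filter] at hz
      have e : ((z.1 : ℤ) - m.1) * u₁ = (z.2 - m.2) * u := by
        linear_combination hz.2 - hm'.2
      by_contra hcon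
      push Not at hcon
      have h2 : (z.2 : ℤ) - m.2 < 0 := by
        have : (z.2 : ℤ) < m.2 := by exact_mod_cast hcon
        linarith
      have h3 : (0 : ℤ) ≤ (z.1 : ℤ) - m.1 := by
        have : (m.1 : ℤ) ≤ z.1 := by exact_mod_cast h1
        linarith
      have h4 : (0 : ℤ) < u := by exact_mod_cast hu
      have h5 : (0 : ℤ) < u₁ := by exact_mod_cast hu₁
      nlinarith [mul_nonneg h3 h5.le, mul_pos (neg_pos.2 h2) h4]
    refine Finset.card_le_card_of_injOn (fun z => (z.1 - m.1, z.2 - m.2)) ?_ ?_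
    · intro z hz
      have hz0 : z ∈ G := hz
      obtain ⟨k1, k2⟩ := key z hz0
      rw [hG, mem_filter, mem_product, mem_range, mem_range] at hz0
      show (z.1 - m.1, z.2 - m.2) ∈ TT N u u₁
      unfold TT
      rw [mem_filter, mem_product, mem_range, mem_range]
      refine ⟨⟨by omega, by omega⟩, ?_⟩
      have e : ((z.1 : ℤ) - m.1) * u₁ = (z.2 - m.2) * u := by
        linear_combination hz0.2 - hm'.2
      have e2 : (((z.1 - m.1) * u₁ : ℕ) : ℤ) = (((z.2 - m.2) * u : ℕ) : ℤ) := by
        push_cast [Nat.cast_sub k1, Nat.cast_sub k2]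
        exact e
      exact_mod_cast e2
    · intro z hz z' hz' he
      obtain ⟨k1, k2⟩ := key z hz
      obtain ⟨k1', k2'⟩ := key z' hz'
      simp only [Prod.mk.injEq] at he
      ext
      · omega
      · omega

/-- solutions of the congruence for fixed denominators -/
def Sol {p : ℕ} (h : ZMod p) (N u u₁ : ℕ) : Finset (ℕ × ℕ) :=
  (range N ×ˢ range N).filter fun z => ((z.1 : ZMod p) + h) * u₁ = ((z.2 : ZMod p) + h) * u

theorem sol_le {p : ℕ} [NeZero p] (h : ZMod p) (N U u u₁ : ℕ) (hu : 1 ≤ u) (hu₁ : 1 ≤ u₁)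
    (huU : u ≤ U) (huU₁ : u₁ ≤ U) (hNU : N * U ≤ p) :
    (Sol h N u u₁).card ≤ 2 * (TT N u u₁).card := by
  classical
  set c : ZMod p := h * u - h * u₁ with hc
  have hsub : Sol h N u u₁ ⊆
      ((range N ×ˢ range N).filter fun z : ℕ × ℕ => ((z.1 : ℤ) * u₁ - z.2 * u = (c.val : ℤ))) ∪
      ((range N ×ˢ range N).filter fun z : ℕ × ℕ =>
        ((z.1 : ℤ) * u₁ - z.2 * u = (c.val : ℤ) - p)) := by
    intro z hz
    unfold Sol at hz
    rw [mem_filter] at hz
    have hz1 := hz.1
    rw [mem_product, mem_range, mem_range] at hz1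
    rw [mem_union, mem_filter, mem_filter]
    set K : ℤ := (z.1 : ℤ) * u₁ - z.2 * u with hK
    have e1 : ((K : ℤ) : ZMod p) = ((c.val : ℤ) : ZMod p) := by
      rw [Int.cast_natCast, ZMod.natCast_val, ZMod.cast_id', id_eq, hK, hc]
      push_cast
      linear_combination hz.2
    have e2 : (p : ℤ) ∣ (c.val : ℤ) - K := (ZMod.intCast_eq_intCast_iff_dvd_sub K (c.val : ℤ) p).1 e1
    obtain ⟨t, ht⟩ := e2
    have hv : c.val < p := ZMod.val_lt c
    have hv' : (c.val : ℤ) < p := by exact_mod_cast hv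
    have hv0 : (0 : ℤ) ≤ c.val := by positivity
    have hN0 : 0 < N := by omega
    have a1 : z.1 * u₁ < p := by
      calc z.1 * u₁ < N * u₁ := (Nat.mul_lt_mul_right (by omega)).2 hz1.1
        _ ≤ N * U := Nat.mul_le_mul_left _ huU₁
        _ ≤ p := hNU
    have a2 : z.2 * u < p := by
      calc z.2 * u < N * u := (Nat.mul_lt_mul_right (by omega)).2 hz1.2
        _ ≤ N * U := Nat.mul_le_mul_left _ huU
        _ ≤ p := hNU
    have a1' : (z.1 : ℤ) * u₁ < p := by exact_mod_cast a1
    have a2' : (z.2 : ℤ) * u < p := by exact_mod_cast a2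
    have b1 : (0 : ℤ) ≤ (z.1 : ℤ) * u₁ := by positivity
    have b2 : (0 : ℤ) ≤ (z.2 : ℤ) * u := by positivity
    have hKlt : K < p := by linarith
    have hKgt : -(p : ℤ) < K := by linarith
    have hp0 : (0 : ℤ) < p := by
      have := Nat.pos_of_ne_zero (NeZero.ne p)
      exact_mod_cast this
    have ht1 : -1 < t := by
      by_contra hcon
      push Not at hcon
      have : (p : ℤ) * t ≤ -p := by nlinarith
      linarith
    have ht2 : t < 2 := by
      by_contra hcon
      push Not at hcon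
      have : 2 * (p : ℤ) ≤ p * t := by nlinarith
      linarith
    have ht3 : t = 0 ∨ t = 1 := by omega
    rcases ht3 with rfl | rfl
    · left
      exact ⟨hz.1, by linarith⟩
    · right
      exact ⟨hz.1, by linarith⟩
  refine (card_le_card hsub).trans ((card_union_le _ _).trans ?_)
  have h1 := fiber_le N u u₁ hu hu₁ (c.val : ℤ)
  have h2 := fiber_le N u u₁ hu hu₁ ((c.val : ℤ) - p)
  omega

theorem sum_TT (N U D : ℕ) (hD : ∀ m : ℕ, 1 ≤ m → m ≤ N * U → m.divisors.card ≤ D) :
    ∑ u ∈ Icc 1 U, ∑ u₁ ∈ Icc 1 U, (TT N u u₁).card ≤ U * U + D * (N * U) := by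
  classical
  have e1 : ∑ u ∈ Icc 1 U, ∑ u₁ ∈ Icc 1 U, (TT N u u₁).card =
      (((Icc 1 U ×ˢ Icc 1 U) ×ˢ (range N ×ˢ range N)).filter
        fun w : (ℕ × ℕ) × (ℕ × ℕ) => w.2.1 * w.1.2 = w.2.2 * w.1.1).card := by
    rw [card_filter, Finset.sum_product (Icc 1 U ×ˢ Icc 1 U) (range N ×ˢ range N),
      Finset.sum_product (Icc 1 U) (Icc 1 U)]
    refine sum_congr rfl fun u _ => sum_congr rfl fun u₁ _ => ?_
    unfold TT
    rw [card_filter]
  rw [e1]
  set W := ((Icc 1 U ×ˢ Icc 1 U) ×ˢ (range N ×ˢ range N)).filter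
        fun w : (ℕ × ℕ) × (ℕ × ℕ) => w.2.1 * w.1.2 = w.2.2 * w.1.1 with hW
  rw [← Finset.card_filter_add_card_filter_not (s := W) (fun w => w.2.1 = 0)]
  refine add_le_add ?_ ?_
  · have : (W.filter fun w => w.2.1 = 0).card ≤ (Icc 1 U ×ˢ Icc 1 U).card := by
      refine Finset.card_le_card_of_injOn (fun w => w.1) ?_ ?_
      · intro w hw
        have hw' : w ∈ W.filter fun w => w.2.1 = 0 := hw
        rw [mem_filter, hW, mem_filter, mem_product] at hw'
        exact hw'.1.1.1
      · intro w hw w' hw' he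
        have a : w ∈ W.filter fun w => w.2.1 = 0 := hw
        have a' : w' ∈ W.filter fun w => w.2.1 = 0 := hw'
        rw [mem_filter, hW, mem_filter, mem_product, mem_product, mem_Icc] at a a'
        simp only at he
        have b : w.2.2 = 0 := by
          have h1 := a.1.2
          rw [a.2, zero_mul] at h1
          rcases Nat.mul_eq_zero.1 h1.symm with h2 | h2
          · exact h2
          · have := a.1.1.1.1.1
            omega
        have b' : w'.2.2 = 0 := by
          have h1 := a'.1.2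
          rw [a'.2, zero_mul] at h1
          rcases Nat.mul_eq_zero.1 h1.symm with h2 | h2
          · exact h2
          · have := a'.1.1.1.1.1
            omega
        refine Prod.ext he (Prod.ext ?_ ?_)
        · rw [a.2, a'.2]
        · rw [b, b']
    rw [card_product, Nat.card_Icc] at this
    simpa using this
  · have := Finset.card_le_mul_card_image_of_maps_to
      (s := W.filter fun w => ¬ w.2.1 = 0) (t := range N ×ˢ Icc 1 U) (f := fun w => (w.2.1, w.1.2))
      ?_ D ?_
    · rw [card_product, Nat.card_Icc, card_range] at this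
      simpa using this
    · intro w hw
      rw [mem_filter, hW, mem_filter, mem_product, mem_product, mem_product] at hw
      rw [mem_product]
      exact ⟨hw.1.1.2.1, hw.1.1.1.2⟩
    · rintro ⟨s, u₁⟩ hsu
      rw [mem_product, mem_range, mem_Icc] at hsu
      simp only at hsu
      rcases Nat.eq_zero_or_pos s with hs | hs
      · have : ((W.filter fun w => ¬ w.2.1 = 0).filter fun w => (w.2.1, w.1.2) = (s, u₁)) = ∅ := by
          refine filter_false_of_mem fun w hw he => ?_
          rw [mem_filter] at hw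
          rw [Prod.mk.injEq] at he
          exact hw.2 (he.1.trans hs)
        rw [this]
        simp
      · refine le_trans ?_ (hD (s * u₁) (Nat.mul_pos hs (by omega))
          (Nat.mul_le_mul hsu.1.le hsu.2.2))
        refine Finset.card_le_card_of_injOn (fun w => w.1.1) ?_ ?_
        · intro w hw
          have hw' : w ∈ ((W.filter fun w => ¬ w.2.1 = 0).filter
            fun w => (w.2.1, w.1.2) = (s, u₁)) := hw
          rw [mem_filter, mem_filter, hW, mem_filter, Prod.mk.injEq] at hw'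
          show w.1.1 ∈ (s * u₁).divisors
          rw [Nat.mem_divisors]
          refine ⟨⟨w.2.2, ?_⟩, (Nat.mul_pos hs (by omega)).ne'⟩
          rw [← hw'.2.1, ← hw'.2.2, hw'.1.1.2, mul_comm]
        · intro w hw w' hw' he
          have a : w ∈ ((W.filter fun w => ¬ w.2.1 = 0).filter
            fun w => (w.2.1, w.1.2) = (s, u₁)) := hw
          have a' : w' ∈ ((W.filter fun w => ¬ w.2.1 = 0).filter
            fun w => (w.2.1, w.1.2) = (s, u₁)) := hw'
          rw [mem_filter, mem_filter, hW, mem_filter, mem_product, mem_product, mem_Icc,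
            Prod.mk.injEq] at a a'
          simp only at he
          have hu0 : 0 < w.1.1 := by
            have := a.1.1.1.1.1.1
            omega
          have e : w.2.2 * w.1.1 = w'.2.2 * w.1.1 := by
            rw [← a.1.1.2, he, ← a'.1.1.2, a.2.1, a.2.2, a'.2.1, a'.2.2]
          refine Prod.ext (Prod.ext he ?_) (Prod.ext ?_ ?_)
          · rw [a.2.2, a'.2.2]
          · rw [a.2.1, a'.2.1]
          · exact Nat.eq_of_mul_eq_mul_right hu0 e

/-- the energy bound -/
theorem energy {p : ℕ} [NeZero p] (h : ZMod p) (N U D : ℕ) (hNU : N * U ≤ p)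
    (hD : ∀ m : ℕ, 1 ≤ m → m ≤ N * U → m.divisors.card ≤ D) :
    ∑ u ∈ Icc 1 U, ∑ u₁ ∈ Icc 1 U, (Sol h N u u₁).card ≤ 2 * (U * U + D * (N * U)) := by
  refine le_trans ?_ (Nat.mul_le_mul_left 2 (sum_TT N U D hD))
  rw [mul_sum]
  refine sum_le_sum fun u hu => ?_
  rw [mul_sum]
  refine sum_le_sum fun u₁ hu₁ => ?_
  rw [mem_Icc] at hu hu₁
  exact sol_le h N U u u₁ hu.1 hu₁.1 hu.2 hu₁.2 hNU

end Pool.Agent.H36.QI
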