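import Pool.Agent.H36.QI.Two
import Pool.Agent.H36.QI.Ener
import Pool.Graph.R_seed8.H471R4.BW.HOL

/-! Sums of a character over quadratic images of intervals: the shifting argument. -/

set_option autoImplicit false

namespace Pool.Agent.H36.QI

open Finset Pool.Agent.H471R4.BW

variable {p : ℕ} [Fact p.Prime]

/-- the short sum -/
noncomputable def FF (V : ℕ) (χ : MulChar (ZMod p) ℂ) (q : ZMod p × ZMod p) : ℂ :=
  ∑ v ∈ range V, χ ((q.1 + (v : ZMod p)) ^ 2 + q.2)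

/-- the sum along an interval -/
noncomputable def SS (N : ℕ) (χ : MulChar (ZMod p) ℂ) (h b : ZMod p) : ℂ :=
  ∑ n ∈ range N, χ (((n : ZMod p) + h) ^ 2 + b)

theorem moment_FF (hp : p ≠ 2) (χ : MulChar (ZMod p) ℂ) (hχ : χ ≠ 1) (r V : ℕ) (hr : 1 ≤ r)
    (hV : V ≤ p) :
    ∑ q : ZMod p × ZMod p, ‖FF V χ q‖ ^ (2 * r) ≤
      2 * ((r : ℝ) ^ (2 * r) * (V : ℝ) ^ r * (p : ℝ) ^ 2 +
        (V : ℝ) ^ (2 * r) * ((2 * r) ^ 2 * p)) := by
  refine le_trans (le_of_eq ?_) (moment_quad hp χ hχ r V hr hV)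
  refine sum_congr rfl fun q _ => ?_
  unfold FF
  rw [Finset.sum_range]

theorem shift (g : ℕ → ℂ) (hg : ∀ n, ‖g n‖ ≤ 1) (N t : ℕ) :
    ‖∑ n ∈ range N, g n - ∑ n ∈ range N, g (n + t)‖ ≤ 2 * t := by
  have h1 : ∑ n ∈ range (N + t), g n = ∑ n ∈ range N, g n + ∑ n ∈ range t, g (N + n) :=
    Finset.sum_range_add g N t
  have h2 : ∑ n ∈ range (t + N), g n = ∑ n ∈ range t, g n + ∑ n ∈ range N, g (t + n) :=
    Finset.sum_range_add g t N
  have h3 : ∑ n ∈ range N, g n - ∑ n ∈ range N, g (n + t) =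
      ∑ n ∈ range t, g n - ∑ n ∈ range t, g (N + n) := by
    have h4 : ∑ n ∈ range N, g (t + n) = ∑ n ∈ range N, g (n + t) :=
      sum_congr rfl fun n _ => by rw [add_comm]
    rw [add_comm t N, h1, h4] at h2
    linear_combination h2
  rw [h3]
  refine (norm_sub_le _ _).trans ?_
  have h5 : ‖∑ n ∈ range t, g n‖ ≤ t := by
    refine (norm_sum_le _ _).trans ?_
    calc ∑ n ∈ range t, ‖g n‖ ≤ ∑ _n ∈ range t, (1 : ℝ) := sum_le_sum fun n _ => hg n
      _ = t := by simp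
  have h6 : ‖∑ n ∈ range t, g (N + n)‖ ≤ t := by
    refine (norm_sum_le _ _).trans ?_
    calc ∑ n ∈ range t, ‖g (N + n)‖ ≤ ∑ _n ∈ range t, (1 : ℝ) := sum_le_sum fun n _ => hg _
      _ = t := by simp
  linarith

/-- the normalised parameters -/
noncomputable def phi (h : ZMod p) (w : ZMod p × (ℕ × ℕ)) : ZMod p × ZMod p :=
  (((w.2.1 : ZMod p) + h) / (w.2.2 : ZMod p), w.1 / (w.2.2 : ZMod p) ^ 2)

/-- the number of representations -/
noncomputable def nu (h : ZMod p) (B : Finset (ZMod p)) (N U : ℕ) (q : ZMod p × ZMod p) : ℕ :=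
  ((B ×ˢ (range N ×ˢ Icc 1 U)).filter fun w => phi h w = q).card

theorem cast_ne {u U : ℕ} (hU : U < p) (hu : 1 ≤ u) (huU : u ≤ U) : (u : ZMod p) ≠ 0 := by
  intro h0
  rw [ZMod.natCast_eq_zero_iff] at h0
  have := Nat.le_of_dvd (by omega) h0
  omega

/-- one shift -/
theorem shift_uv (χ : MulChar (ZMod p) ℂ) (h b : ZMod p) (N U V : ℕ) (hU : U < p) :
    ((U * V : ℕ) : ℝ) * ‖SS N χ h b‖ ≤
      ∑ n ∈ range N, ∑ u ∈ Icc 1 U, ‖FF V χ (phi h (b, (n, u)))‖ +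
        2 * ((U * V : ℕ) : ℝ) * ((U * V : ℕ) : ℝ) := by
  have key : ∀ u ∈ Icc 1 U, ∀ v ∈ range V, ‖SS N χ h b -
      ∑ n ∈ range N, χ ((((n + u * v : ℕ) : ZMod p) + h) ^ 2 + b)‖ ≤ 2 * ((U * V : ℕ) : ℝ) := by
    intro u hu v hv
    rw [mem_Icc] at hu
    rw [mem_range] at hv
    refine (shift (fun n => χ (((n : ZMod p) + h) ^ 2 + b)) (fun n => norm_char_le χ _) N
      (u * v)).trans ?_
    have : ((u * v : ℕ) : ℝ) ≤ ((U * V : ℕ) : ℝ) := by
      exact_mod_cast Nat.mul_le_mul hu.2 hv.le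
    linarith
  have e1 : ((U * V : ℕ) : ℂ) * SS N χ h b =
      ∑ u ∈ Icc 1 U, ∑ v ∈ range V, ∑ n ∈ range N,
        χ ((((n + u * v : ℕ) : ZMod p) + h) ^ 2 + b) +
      ∑ u ∈ Icc 1 U, ∑ v ∈ range V, (SS N χ h b -
        ∑ n ∈ range N, χ ((((n + u * v : ℕ) : ZMod p) + h) ^ 2 + b)) := by
    rw [← sum_add_distrib]
    have : ∀ u ∈ Icc 1 U, (∑ v ∈ range V, ∑ n ∈ range N,
        χ ((((n + u * v : ℕ) : ZMod p) + h) ^ 2 + b) +
        ∑ v ∈ range V, (SS N χ h b -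
        ∑ n ∈ range N, χ ((((n + u * v : ℕ) : ZMod p) + h) ^ 2 + b))) = V * SS N χ h b := by
      intro u _
      rw [← sum_add_distrib]
      simp
    rw [sum_congr rfl this, sum_const, Nat.card_Icc, nsmul_eq_mul, Nat.add_sub_cancel]
    push_cast
    ring
  have e2 : ‖∑ u ∈ Icc 1 U, ∑ v ∈ range V, (SS N χ h b -
        ∑ n ∈ range N, χ ((((n + u * v : ℕ) : ZMod p) + h) ^ 2 + b))‖ ≤
      2 * ((U * V : ℕ) : ℝ) * ((U * V : ℕ) : ℝ) := by
    refine (norm_sum_le _ _).trans ?_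
    calc ∑ u ∈ Icc 1 U, ‖∑ v ∈ range V, (SS N χ h b -
        ∑ n ∈ range N, χ ((((n + u * v : ℕ) : ZMod p) + h) ^ 2 + b))‖
        ≤ ∑ u ∈ Icc 1 U, ∑ _v ∈ range V, 2 * ((U * V : ℕ) : ℝ) := by
          refine sum_le_sum fun u hu => (norm_sum_le _ _).trans ?_
          exact sum_le_sum fun v hv => key u hu v hv
      _ = 2 * ((U * V : ℕ) : ℝ) * ((U * V : ℕ) : ℝ) := by
          simp only [sum_const, Nat.card_Icc, card_range, nsmul_eq_mul, Nat.add_sub_cancel]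
          push_cast
          ring
  have e3 : ‖∑ u ∈ Icc 1 U, ∑ v ∈ range V, ∑ n ∈ range N,
        χ ((((n + u * v : ℕ) : ZMod p) + h) ^ 2 + b)‖ ≤
      ∑ n ∈ range N, ∑ u ∈ Icc 1 U, ‖FF V χ (phi h (b, (n, u)))‖ := by
    rw [sum_comm (s := range N)]
    refine (norm_sum_le _ _).trans (sum_le_sum fun u hu => ?_)
    rw [sum_comm]
    refine (norm_sum_le _ _).trans (sum_le_sum fun n _ => ?_)
    rw [mem_Icc] at hu
    have hu0 : (u : ZMod p) ≠ 0 := cast_ne hU hu.1 hu.2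
    have e4 : ∑ v ∈ range V, χ ((((n + u * v : ℕ) : ZMod p) + h) ^ 2 + b) =
        χ ((u : ZMod p) ^ 2) * FF V χ (phi h (b, (n, u))) := by
      unfold FF
      rw [mul_sum]
      refine sum_congr rfl fun v _ => ?_
      rw [← map_mul]
      congr 1
      unfold phi
      push_cast
      field_simp
      ring
    rw [e4, norm_mul]
    have := norm_char_le χ ((u : ZMod p) ^ 2)
    exact mul_le_of_le_one_left (norm_nonneg _) this
  have e5 : ((U * V : ℕ) : ℝ) * ‖SS N χ h b‖ = ‖((U * V : ℕ) : ℂ) * SS N χ h b‖ := by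
    rw [norm_mul, Complex.norm_natCast]
  rw [e5, e1]
  refine (norm_add_le _ _).trans (add_le_add e3 e2)

open Classical in
theorem nu_sum (h : ZMod p) (B : Finset (ZMod p)) (N U : ℕ) :
    ∑ q : ZMod p × ZMod p, nu h B N U q = B.card * (N * U) := by
  unfold nu
  rw [← Finset.card_eq_sum_card_fiberwise (fun _ _ => Finset.mem_coe.2 (mem_univ _)), card_product,
    card_product, card_range, Nat.card_Icc]
  simp

open Classical in
theorem nu_sq (h : ZMod p) (B : Finset (ZMod p)) (N U : ℕ) (hU : U < p) :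
    ∑ q : ZMod p × ZMod p, (nu h B N U q) ^ 2 ≤
      B.card * ∑ u ∈ Icc 1 U, ∑ u₁ ∈ Icc 1 U, (Sol h N u u₁).card := by
  set S := B ×ˢ (range N ×ˢ Icc 1 U) with hS
  set P := (S ×ˢ S).filter fun z => phi h z.1 = phi h z.2 with hP
  have e1 : P.card = ∑ q : ZMod p × ZMod p, (nu h B N U q) ^ 2 := by
    rw [Finset.card_eq_sum_card_fiberwise (f := fun z => phi h z.1)
      (t := (univ : Finset (ZMod p × ZMod p))) (fun _ _ => Finset.mem_coe.2 (mem_univ _))]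
    refine sum_congr rfl fun q _ => ?_
    have e2 : P.filter (fun z => phi h z.1 = q) =
        (S.filter fun w => phi h w = q) ×ˢ (S.filter fun w => phi h w = q) := by
      ext z
      simp only [hP, mem_filter, mem_product (s := S) (t := S),
        mem_product (s := S.filter fun w => phi h w = q) (t := S.filter fun w => phi h w = q)]
      constructor
      · rintro ⟨⟨⟨h1, h2⟩, h3⟩, h4⟩
        exact ⟨⟨h1, h4⟩, h2, h3 ▸ h4⟩
      · rintro ⟨⟨h1, h4⟩, h2, h5⟩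
        exact ⟨⟨⟨h1, h2⟩, h4.trans h5.symm⟩, h4⟩
    rw [e2, card_product]
    unfold nu
    rw [pow_two]
  set Q := ((Icc 1 U ×ˢ Icc 1 U) ×ˢ (range N ×ˢ range N)).filter
    fun w : (ℕ × ℕ) × (ℕ × ℕ) => ((w.2.1 : ZMod p) + h) * w.1.2 = ((w.2.2 : ZMod p) + h) * w.1.1
    with hQ
  have e3 : Q.card = ∑ u ∈ Icc 1 U, ∑ u₁ ∈ Icc 1 U, (Sol h N u u₁).card := by
    rw [hQ, card_filter, Finset.sum_product (Icc 1 U ×ˢ Icc 1 U) (range N ×ˢ range N),
      Finset.sum_product (Icc 1 U) (Icc 1 U)]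
    refine sum_congr rfl fun u _ => sum_congr rfl fun u₁ _ => ?_
    unfold Sol
    rw [card_filter]
  rw [← e1, ← e3, ← card_product]
  refine Finset.card_le_card_of_injOn
    (fun z => (z.1.1, ((z.1.2.2, z.2.2.2), (z.1.2.1, z.2.2.1)))) ?_ ?_
  · intro z hz
    have hz' : z ∈ P := hz
    rw [hP, mem_filter, mem_product, hS, mem_product, mem_product, mem_product, mem_product,
      mem_Icc, mem_Icc] at hz'
    obtain ⟨⟨⟨a1, a2, a3⟩, b1, b2, b3⟩, h3⟩ := hz'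
    show (z.1.1, ((z.1.2.2, z.2.2.2), (z.1.2.1, z.2.2.1))) ∈ B ×ˢ Q
    rw [mem_product, hQ, mem_filter, mem_product, mem_product, mem_product, mem_Icc, mem_Icc]
    refine ⟨a1, ⟨⟨a3, b3⟩, a2, b2⟩, ?_⟩
    have hu : (z.1.2.2 : ZMod p) ≠ 0 := cast_ne hU a3.1 a3.2
    have hu' : (z.2.2.2 : ZMod p) ≠ 0 := cast_ne hU b3.1 b3.2
    have h4 := congrArg Prod.fst h3
    unfold phi at h4
    simp only at h4
    rw [div_eq_div_iff hu hu'] at h4
    exact h4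
  · intro z hz z' hz' he
    have a : z ∈ P := hz
    have a' : z' ∈ P := hz'
    rw [hP, mem_filter, mem_product, hS, mem_product, mem_product, mem_product, mem_product,
      mem_Icc, mem_Icc] at a a'
    simp only [Prod.mk.injEq] at he
    obtain ⟨c1, ⟨c2, c3⟩, c4, c5⟩ := he
    have hu : (z.1.2.2 : ZMod p) ≠ 0 := cast_ne hU a.1.1.2.2.1 a.1.1.2.2.2
    have hu' : (z.2.2.2 : ZMod p) ≠ 0 := cast_ne hU a.1.2.2.2.1 a.1.2.2.2.2
    have h4 := congrArg Prod.snd a.2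
    have h5 := congrArg Prod.snd a'.2
    unfold phi at h4 h5
    simp only at h4 h5
    rw [← c1, ← c2, ← c3] at h5
    have h6 : z.2.1 = z'.2.1 := by
      have h7 : z.2.1 / (z.2.2.2 : ZMod p) ^ 2 = z'.2.1 / (z.2.2.2 : ZMod p) ^ 2 :=
        h4.symm.trans h5
      exact (div_left_inj' (pow_ne_zero 2 hu')).1 h7
    exact Prod.ext (Prod.ext c1 (Prod.ext c4 c2)) (Prod.ext h6 (Prod.ext c5 c3))

/-- the double sum of the short sums -/
noncomputable def WW (V : ℕ) (χ : MulChar (ZMod p) ℂ) (h : ZMod p) (B : Finset (ZMod p))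
    (N U : ℕ) : ℝ :=
  ∑ b ∈ B, ∑ n ∈ range N, ∑ u ∈ Icc 1 U, ‖FF V χ (phi h (b, (n, u)))‖

open Classical in
theorem WW_eq (V : ℕ) (χ : MulChar (ZMod p) ℂ) (h : ZMod p) (B : Finset (ZMod p)) (N U : ℕ) :
    WW V χ h B N U = ∑ q : ZMod p × ZMod p, (nu h B N U q : ℝ) * ‖FF V χ q‖ := by
  have e1 : WW V χ h B N U = ∑ w ∈ B ×ˢ (range N ×ˢ Icc 1 U), ‖FF V χ (phi h w)‖ := by
    unfold WW
    rw [Finset.sum_product B (range N ×ˢ Icc 1 U)]
    refine sum_congr rfl fun b _ => ?_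
    rw [Finset.sum_product (range N) (Icc 1 U)]
  rw [e1, ← Finset.sum_fiberwise_of_maps_to
    (g := fun w => phi h w) (t := (univ : Finset (ZMod p × ZMod p))) (fun _ _ => mem_univ _)]
  refine sum_congr rfl fun q _ => ?_
  unfold nu
  rw [← nsmul_eq_mul, ← sum_const]
  refine sum_congr rfl fun w hw => ?_
  rw [mem_filter] at hw
  rw [hw.2]

theorem WW_pow (hp : p ≠ 2) (χ : MulChar (ZMod p) ℂ) (hχ : χ ≠ 1) (h : ZMod p)
    (B : Finset (ZMod p)) (N U V r D : ℕ) (hr : 1 ≤ r) (hUN : U ≤ N)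
    (hNU : N * U ≤ p) (hUp : U < p) (hV : V ≤ p) (hVr : p ≤ V ^ r) (hD1 : 1 ≤ D)
    (hD : ∀ m : ℕ, 1 ≤ m → m ≤ N * U → m.divisors.card ≤ D) :
    (WW V χ h B N U) ^ (2 * r) ≤ ((B.card : ℝ) * (N * U)) ^ (2 * r - 1) *
      ((V : ℝ) ^ (2 * r) * (8 * D * ((r : ℝ) ^ (2 * r) + 4 * r ^ 2) * p)) := by
  classical
  have h1 := hol (ZMod p × ZMod p) r hr (fun q => (nu h B N U q : ℝ)) (fun q => ‖FF V χ q‖)
    (fun q => Nat.cast_nonneg _) (fun q => norm_nonneg _)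
  rw [← WW_eq] at h1
  have h2 : ∑ q : ZMod p × ZMod p, (nu h B N U q : ℝ) = (B.card : ℝ) * (N * U) := by
    exact_mod_cast nu_sum h B N U
  have h3 : ∑ q : ZMod p × ZMod p, (nu h B N U q : ℝ) ^ 2 ≤ (B.card : ℝ) * (N * U) * (4 * D) := by
    have a1 := nu_sq h B N U hUp
    have a2 := energy h N U D hNU hD
    have a3 : 2 * (U * U + D * (N * U)) ≤ (N * U) * (4 * D) := by
      have b1 : U * U ≤ D * (N * U) := by
        calc U * U ≤ N * U := Nat.mul_le_mul_right _ hUN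
          _ = 1 * (N * U) := (one_mul _).symm
          _ ≤ D * (N * U) := Nat.mul_le_mul_right _ hD1
      nlinarith
    have a4 : ∑ q : ZMod p × ZMod p, (nu h B N U q) ^ 2 ≤ B.card * ((N * U) * (4 * D)) :=
      a1.trans (Nat.mul_le_mul_left _ (a2.trans a3))
    have a5 : ((∑ q : ZMod p × ZMod p, (nu h B N U q) ^ 2 : ℕ) : ℝ) ≤
        ((B.card * ((N * U) * (4 * D)) : ℕ) : ℝ) := by exact_mod_cast a4
    push_cast at a5
    rw [mul_assoc]
    exact a5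
  have h4 := moment_FF hp χ hχ r V hr hV
  have hT : (0 : ℝ) ≤ (B.card : ℝ) * (N * U) := by positivity
  have h5 : 2 * ((r : ℝ) ^ (2 * r) * (V : ℝ) ^ r * (p : ℝ) ^ 2 +
        (V : ℝ) ^ (2 * r) * ((2 * r) ^ 2 * p)) ≤
      (V : ℝ) ^ (2 * r) * (2 * ((r : ℝ) ^ (2 * r) + 4 * r ^ 2) * p) := by
    have c1 : (p : ℝ) ≤ (V : ℝ) ^ r := by exact_mod_cast hVr
    have c2 : (V : ℝ) ^ r * (p : ℝ) ^ 2 ≤ (V : ℝ) ^ (2 * r) * p := by
      rw [two_mul r, pow_add]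
      calc (V : ℝ) ^ r * (p : ℝ) ^ 2 = (V : ℝ) ^ r * p * p := by ring
        _ ≤ (V : ℝ) ^ r * (V : ℝ) ^ r * p := by gcongr
    have c3 : (r : ℝ) ^ (2 * r) * ((V : ℝ) ^ r * (p : ℝ) ^ 2) ≤
        (r : ℝ) ^ (2 * r) * ((V : ℝ) ^ (2 * r) * p) :=
      mul_le_mul_of_nonneg_left c2 (by positivity)
    nlinarith [c3]
  rw [h2] at h1
  have e0 : ((B.card : ℝ) * (N * U)) ^ (2 * r - 1) =
      ((B.card : ℝ) * (N * U)) ^ (2 * r - 2) * ((B.card : ℝ) * (N * U)) := by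
    rw [← pow_succ]
    congr 1
    omega
  calc (WW V χ h B N U) ^ (2 * r) ≤ _ := h1
    _ ≤ ((B.card : ℝ) * (N * U)) ^ (2 * r - 2) * ((B.card : ℝ) * (N * U) * (4 * D)) *
        ((V : ℝ) ^ (2 * r) * (2 * ((r : ℝ) ^ (2 * r) + 4 * r ^ 2) * p)) := by
      refine mul_le_mul (mul_le_mul_of_nonneg_left h3 (by positivity)) (h4.trans h5)
        (sum_nonneg fun _ _ => by positivity) (by positivity)
    _ = _ := by
      rw [e0]
      ring

/-- the bound for one length -/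
theorem core (hp : p ≠ 2) (χ : MulChar (ZMod p) ℂ) (hχ : χ ≠ 1) (h : ZMod p)
    (B : Finset (ZMod p)) (hB : 0 < B.card) (N U V r D : ℕ) (hr : 1 ≤ r) (hU1 : 1 ≤ U)
    (hUN : U ≤ N) (hNU : N * U ≤ p) (hUp : U < p) (hV1 : 1 ≤ V) (hV : V ≤ p) (hVr : p ≤ V ^ r)
    (hD1 : 1 ≤ D) (hD : ∀ m : ℕ, 1 ≤ m → m ≤ N * U → m.divisors.card ≤ D) (X : ℝ) (hX0 : 0 ≤ X)
    (hX : 8 * D * ((r : ℝ) ^ (2 * r) + 4 * r ^ 2) * p ≤ X ^ (2 * r) * (B.card * (N * U))) :
    ∑ b ∈ B, ‖SS N χ h b‖ ≤ B.card * N * X + 2 * (U * V) * B.card := by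
  have hW := WW_pow hp χ hχ h B N U V r D hr hUN hNU hUp hV hVr hD1 hD
  have hT : (0 : ℝ) < (B.card : ℝ) * (N * U) := by
    have h1 : (0 : ℝ) < B.card := by exact_mod_cast hB
    have h2 : (0 : ℝ) < N := by
      have : 0 < N := by omega
      exact_mod_cast this
    have h3 : (0 : ℝ) < U := by exact_mod_cast hU1
    positivity
  have hV0 : (0 : ℝ) < V := by exact_mod_cast hV1
  have hW2 : WW V χ h B N U ≤ (B.card : ℝ) * (N * U) * V * X := by
    refine le_of_pow_le_pow_left₀ (n := 2 * r) (by omega) (by positivity) ?_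
    refine hW.trans ?_
    have e0 : ((B.card : ℝ) * (N * U) * V * X) ^ (2 * r) =
        ((B.card : ℝ) * (N * U)) ^ (2 * r - 1) *
          ((V : ℝ) ^ (2 * r) * (X ^ (2 * r) * (B.card * (N * U)))) := by
      have e1 : ((B.card : ℝ) * (N * U)) ^ (2 * r) =
          ((B.card : ℝ) * (N * U)) ^ (2 * r - 1) * ((B.card : ℝ) * (N * U)) := by
        rw [← pow_succ]
        congr 1
        omega
      rw [mul_pow, mul_pow, e1]
      ring
    rw [e0]
    gcongr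
  have hsum : ((U * V : ℕ) : ℝ) * ∑ b ∈ B, ‖SS N χ h b‖ ≤
      WW V χ h B N U + 2 * ((U * V : ℕ) : ℝ) * ((U * V : ℕ) : ℝ) * B.card := by
    rw [mul_sum]
    refine (sum_le_sum fun b _ => shift_uv χ h b N U V hUp).trans ?_
    rw [sum_add_distrib, sum_const, nsmul_eq_mul]
    unfold WW
    linarith
  have hUV : (0 : ℝ) < ((U * V : ℕ) : ℝ) := by
    have : 0 < U * V := Nat.mul_pos hU1 hV1
    exact_mod_cast this
  have h6 : ((U * V : ℕ) : ℝ) * ∑ b ∈ B, ‖SS N χ h b‖ ≤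
      ((U * V : ℕ) : ℝ) * (B.card * N * X + 2 * (U * V) * B.card) := by
    refine hsum.trans ?_
    push_cast
    have : WW V χ h B N U ≤ (B.card : ℝ) * (N * U) * V * X := hW2
    nlinarith [this]
  exact le_of_mul_le_mul_left h6 hUV

end Pool.Agent.H36.QI
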