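import Pool.Agent.H36.QI.Short

/-! Intervals of any length. -/

set_option autoImplicit false

namespace Pool.Agent.H36.QI

open Finset

theorem SS_le {p : ℕ} [Fact p.Prime] (N : ℕ) (χ : MulChar (ZMod p) ℂ) (h b : ZMod p) :
    ‖SS N χ h b‖ ≤ N := by
  unfold SS
  refine (norm_sum_le _ _).trans ?_
  calc ∑ n ∈ range N, ‖χ (((n : ZMod p) + h) ^ 2 + b)‖ ≤ ∑ _n ∈ range N, (1 : ℝ) :=
        sum_le_sum fun n _ => norm_char_le χ _
    _ = N := by simp

theorem SS_add {p : ℕ} [Fact p.Prime] (N s : ℕ) (χ : MulChar (ZMod p) ℂ) (h b : ZMod p) :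
    SS (N + s) χ h b = SS N χ h b + SS s χ (h + N) b := by
  unfold SS
  rw [Finset.sum_range_add]
  congr 1
  refine sum_congr rfl fun n _ => ?_
  congr 3
  push_cast
  ring

theorem SS_chop {p : ℕ} [Fact p.Prime] (k N s : ℕ) (χ : MulChar (ZMod p) ℂ) (h b : ZMod p) :
    ‖SS (k * N + s) χ h b‖ ≤ ∑ i ∈ range k, ‖SS N χ (h + ((i * N : ℕ) : ZMod p)) b‖ + s := by
  induction k generalizing h with
  | zero =>
    rw [zero_mul, zero_add, range_zero, sum_empty, zero_add]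
    exact SS_le s χ h b
  | succ k ih =>
    have e : (k + 1) * N + s = N + (k * N + s) := by ring
    rw [e, SS_add, sum_range_succ']
    refine (norm_add_le _ _).trans ?_
    have h1 := ih (h + N)
    have h2 : ∀ i : ℕ, SS N χ (h + N + ((i * N : ℕ) : ZMod p)) b =
        SS N χ (h + (((i + 1) * N : ℕ) : ZMod p)) b := by
      intro i
      congr 1
      push_cast
      ring
    simp only [h2] at h1
    have h3 : SS N χ (h + ((0 * N : ℕ) : ZMod p)) b = SS N χ h b := by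
      congr 1
      simp
    rw [h3]
    linarith

theorem long (ε : ℝ) (hε : 0 < ε) : ∃ δ : ℝ, 0 < δ ∧ ∃ p₀ : ℕ, ∀ p : ℕ, p₀ ≤ p →
    ∀ [Fact p.Prime] (χ : MulChar (ZMod p) ℂ), χ ≠ 1 → ∀ (h : ZMod p) (B : Finset (ZMod p))
    (N : ℕ), (p : ℝ) ^ ε ≤ B.card → (p : ℝ) ^ (1 + ε) ≤ (N : ℝ) ^ 2 * B.card →
    ∑ b ∈ B, ‖SS N χ h b‖ ≤ (p : ℝ) ^ (-δ) * (N * B.card) := by
  obtain ⟨δ₁, hδ₁, p₁, hp₁⟩ := short (ε / 2) (by positivity)
  set δ : ℝ := min δ₁ (ε / 8) / 2 with hδ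
  have hm0 : 0 < min δ₁ (ε / 8) := lt_min hδ₁ (by positivity)
  have hδ0 : 0 < δ := by positivity
  obtain ⟨P, hP⟩ := exists_nat_gt ((2 : ℝ) ^ (1 / δ) + (4 : ℝ) ^ (4 / ε) + 3)
  refine ⟨δ, hδ0, max p₁ P, ?_⟩
  intro p hpP hfact χ hχ h B N hB hNB
  have hpp : p.Prime := hfact.out
  have hpR : (P : ℝ) ≤ p := by exact_mod_cast (le_max_right _ _).trans hpP
  have ha : 0 ≤ (2 : ℝ) ^ (1 / δ) := by positivity
  have hb : 0 ≤ (4 : ℝ) ^ (4 / ε) := by positivity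
  have hp2δ : (2 : ℝ) ^ (1 / δ) ≤ (p : ℝ) := by linarith
  have hp4ε : (4 : ℝ) ^ (4 / ε) ≤ (p : ℝ) := by linarith
  have hp3 : (3 : ℝ) < p := by linarith
  have hp1 : (1 : ℝ) ≤ p := by linarith
  have hp0 : (0 : ℝ) < p := by linarith
  have hBp : (B.card : ℝ) ≤ p := by
    have := Finset.card_le_univ B
    rw [ZMod.card] at this
    exact_mod_cast this
  have hB0 : (0 : ℝ) < B.card := lt_of_lt_of_le (by positivity) hB
  have hmono : ∀ t : ℝ, δ ≤ t → (p : ℝ) ^ (-t) ≤ (p : ℝ) ^ (-δ) := fun t ht =>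
    Real.rpow_le_rpow_of_exponent_le hp1 (by linarith)
  have hδ1' : δ ≤ δ₁ := by
    have := min_le_left δ₁ (ε / 8)
    linarith
  rcases le_or_gt (N * N) p with hN | hN
  · refine (hp₁ p ((le_max_left _ _).trans hpP) χ hχ h B N hN ?_).trans ?_
    · refine le_trans ?_ hNB
      exact Real.rpow_le_rpow_of_exponent_le hp1 (by linarith)
    · exact mul_le_mul_of_nonneg_right (hmono δ₁ hδ1') (by positivity)
  · have hε1 : ε ≤ 1 := by
      by_contra hcon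
      push Not at hcon
      have h1 : (p : ℝ) ^ (1 : ℝ) < (p : ℝ) ^ ε :=
        Real.rpow_lt_rpow_of_exponent_lt (by linarith) hcon
      rw [Real.rpow_one] at h1
      linarith
    have hNp : (p : ℝ) ^ (1 / 2 : ℝ) ≤ N := by
      have h1 : (p : ℝ) ≤ (N : ℝ) ^ 2 := by
        have : (p : ℝ) ≤ ((N * N : ℕ) : ℝ) := by exact_mod_cast hN.le
        push_cast at this
        rw [pow_two]
        exact this
      rw [← Real.sqrt_eq_rpow]
      exact Real.sqrt_le_iff.2 ⟨Nat.cast_nonneg _, h1⟩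
    have hN0 : (0 : ℝ) < N := lt_of_lt_of_le (by positivity) hNp
    set y : ℝ := (p : ℝ) ^ (1 / 2 - ε / 8) with hy
    have hy1 : 1 ≤ y := Real.one_le_rpow hp1 (by linarith)
    set L : ℕ := ⌊y⌋₊ with hL
    have hL1 : 1 ≤ L := Nat.le_floor (by simpa using hy1)
    have hLy : (L : ℝ) ≤ y := Nat.floor_le (by linarith)
    have hLlow : y / 2 ≤ L := by
      have h1 := Nat.lt_floor_add_one y
      have h2 : (1 : ℝ) ≤ L := by exact_mod_cast hL1
      linarith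
    have hy2 : y ^ 2 = (p : ℝ) ^ (1 - ε / 4) := by
      rw [hy, ← Real.rpow_natCast, ← Real.rpow_mul hp0.le]
      congr 1
      push_cast
      ring
    have hLL : L * L ≤ p := by
      have h1 : (L : ℝ) ^ 2 ≤ y ^ 2 := pow_le_pow_left₀ (by positivity) hLy 2
      have h2 : (p : ℝ) ^ (1 - ε / 4) ≤ (p : ℝ) ^ (1 : ℝ) :=
        Real.rpow_le_rpow_of_exponent_le hp1 (by linarith)
      rw [Real.rpow_one] at h2
      have h3 : ((L * L : ℕ) : ℝ) ≤ p := by
        push_cast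
        nlinarith
      exact_mod_cast h3
    have hLB : (p : ℝ) ^ (1 + ε / 2) ≤ (L : ℝ) ^ 2 * B.card := by
      have h1 : (y / 2) ^ 2 ≤ (L : ℝ) ^ 2 := pow_le_pow_left₀ (by positivity) hLlow 2
      have h4 : (4 : ℝ) ≤ (p : ℝ) ^ (ε / 4) := by
        have h5 := Real.rpow_le_rpow (by positivity) hp4ε (by positivity : 0 ≤ ε / 4)
        rw [← Real.rpow_mul (by norm_num)] at h5
        have h6 : 4 / ε * (ε / 4) = 1 := by field_simp
        rw [h6, Real.rpow_one] at h5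
        exact h5
      calc (p : ℝ) ^ (1 + ε / 2) = (p : ℝ) ^ (1 + ε / 2) / 4 * 4 := by ring
        _ ≤ (p : ℝ) ^ (1 + ε / 2) / 4 * (p : ℝ) ^ (ε / 4) :=
            mul_le_mul_of_nonneg_left h4 (by positivity)
        _ = (y / 2) ^ 2 * (p : ℝ) ^ ε := by
            rw [div_pow, hy2]
            have e1 : (p : ℝ) ^ (1 + ε / 2) * (p : ℝ) ^ (ε / 4) =
                (p : ℝ) ^ (1 - ε / 4) * (p : ℝ) ^ ε := by
              rw [← Real.rpow_add hp0, ← Real.rpow_add hp0]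
              congr 1
              ring
            linear_combination (1 / 4) * e1
        _ ≤ (L : ℝ) ^ 2 * B.card := mul_le_mul h1 hB (by positivity) (by positivity)
    have hdec : N = (N / L) * L + N % L := (Nat.div_add_mod' N L).symm
    have hmod : N % L < L := Nat.mod_lt _ (by omega)
    have h1 : ∑ b ∈ B, ‖SS N χ h b‖ ≤
        ∑ i ∈ range (N / L), ∑ b ∈ B, ‖SS L χ (h + ((i * L : ℕ) : ZMod p)) b‖ +
          (N % L : ℕ) * B.card := by
      rw [sum_comm]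
      have h2 : ∑ b ∈ B, ‖SS N χ h b‖ ≤ ∑ b ∈ B,
          (∑ i ∈ range (N / L), ‖SS L χ (h + ((i * L : ℕ) : ZMod p)) b‖ + ((N % L : ℕ) : ℝ)) := by
        refine sum_le_sum fun b _ => ?_
        have := SS_chop (N / L) L (N % L) χ h b
        rw [← hdec] at this
        exact this
      refine h2.trans (le_of_eq ?_)
      rw [sum_add_distrib, sum_const, nsmul_eq_mul, mul_comm ((B.card : ℕ) : ℝ)]
    have h3 : ∑ i ∈ range (N / L), ∑ b ∈ B, ‖SS L χ (h + ((i * L : ℕ) : ZMod p)) b‖ ≤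
        (N / L : ℕ) * ((p : ℝ) ^ (-δ₁) * (L * B.card)) := by
      calc ∑ i ∈ range (N / L), ∑ b ∈ B, ‖SS L χ (h + ((i * L : ℕ) : ZMod p)) b‖
          ≤ ∑ _i ∈ range (N / L), ((p : ℝ) ^ (-δ₁) * (L * B.card)) :=
            sum_le_sum fun i _ => hp₁ p ((le_max_left _ _).trans hpP) χ hχ _ B L hLL hLB
        _ = (N / L : ℕ) * ((p : ℝ) ^ (-δ₁) * (L * B.card)) := by
            rw [sum_const, card_range, nsmul_eq_mul]
    have h4 : ((N / L : ℕ) : ℝ) * L ≤ N := by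
      have : (N / L) * L ≤ N := Nat.div_mul_le_self N L
      exact_mod_cast this
    have h5 : ((N % L : ℕ) : ℝ) ≤ N * (p : ℝ) ^ (-(ε / 8)) := by
      calc ((N % L : ℕ) : ℝ) ≤ L := by exact_mod_cast hmod.le
        _ ≤ y := hLy
        _ = (p : ℝ) ^ (1 / 2 : ℝ) * (p : ℝ) ^ (-(ε / 8)) := by
            rw [hy, ← Real.rpow_add hp0]
            congr 1
        _ ≤ N * (p : ℝ) ^ (-(ε / 8)) := mul_le_mul_of_nonneg_right hNp (by positivity)
    have hmin : ∀ t : ℝ, min δ₁ (ε / 8) ≤ t → (p : ℝ) ^ (-t) ≤ (p : ℝ) ^ (-δ) * (p : ℝ) ^ (-δ) := by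
      intro t ht
      rw [← Real.rpow_add hp0]
      refine Real.rpow_le_rpow_of_exponent_le hp1 ?_
      rw [hδ]
      linarith
    have h6 := hmin δ₁ (min_le_left _ _)
    have h7 := hmin (ε / 8) (min_le_right _ _)
    have hq0 : 0 ≤ (p : ℝ) ^ (-δ) := Real.rpow_nonneg hp0.le _
    have hq1 : 0 ≤ (p : ℝ) ^ (-δ₁) := Real.rpow_nonneg hp0.le _
    have h8 : 2 * (p : ℝ) ^ (-δ) ≤ 1 := by
      have h9 : (2 : ℝ) ≤ (p : ℝ) ^ δ := by
        have h10 := Real.rpow_le_rpow (by positivity) hp2δ hδ0.le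
        rw [← Real.rpow_mul (by norm_num), one_div_mul_cancel hδ0.ne', Real.rpow_one] at h10
        exact h10
      calc 2 * (p : ℝ) ^ (-δ) ≤ (p : ℝ) ^ δ * (p : ℝ) ^ (-δ) :=
            mul_le_mul_of_nonneg_right h9 hq0
        _ = 1 := by rw [← Real.rpow_add hp0, add_neg_cancel, Real.rpow_zero]
    have hNB0 : 0 ≤ (N : ℝ) * B.card := mul_nonneg hN0.le hB0.le
    calc ∑ b ∈ B, ‖SS N χ h b‖
        ≤ (N / L : ℕ) * ((p : ℝ) ^ (-δ₁) * (L * B.card)) + (N % L : ℕ) * B.card := by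
          linarith
      _ = (((N / L : ℕ) : ℝ) * L) * ((p : ℝ) ^ (-δ₁) * B.card) + (N % L : ℕ) * B.card := by ring
      _ ≤ N * ((p : ℝ) ^ (-δ₁) * B.card) + (N * (p : ℝ) ^ (-(ε / 8))) * B.card := by
          refine add_le_add ?_ ?_
          · exact mul_le_mul_of_nonneg_right h4 (mul_nonneg hq1 hB0.le)
          · exact mul_le_mul_of_nonneg_right h5 hB0.le
      _ = (p : ℝ) ^ (-δ₁) * (N * B.card) + (p : ℝ) ^ (-(ε / 8)) * (N * B.card) := by ring
      _ ≤ ((p : ℝ) ^ (-δ) * (p : ℝ) ^ (-δ)) * (N * B.card) +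
          ((p : ℝ) ^ (-δ) * (p : ℝ) ^ (-δ)) * (N * B.card) :=
          add_le_add (mul_le_mul_of_nonneg_right h6 hNB0) (mul_le_mul_of_nonneg_right h7 hNB0)
      _ = (2 * (p : ℝ) ^ (-δ)) * ((p : ℝ) ^ (-δ) * (N * B.card)) := by ring
      _ ≤ 1 * ((p : ℝ) ^ (-δ) * (N * B.card)) :=
          mul_le_mul_of_nonneg_right h8 (mul_nonneg hq0 hNB0)
      _ = (p : ℝ) ^ (-δ) * (N * B.card) := one_mul _

end Pool.Agent.H36.QI
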