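import Pool.Graph.R_seed8.H435R3.Weil.Main
import Pool.Graph.R_seed8.H471R4.BW.TUP
import Pool.Graph.R_seed8.H471R4.BW.CSL

/-! Moments of short character sums over a general finite field, and of two-point correlations
(the argument of `W27.TP.Moment` over the prime field). -/

set_option autoImplicit false

namespace Pool.Agent.H36.QI

open Finset Polynomial Pool.Agent.H471R4.BW Pool.Agent.H435R3.Weil

variable {F : Type} [Field F] [Fintype F] [DecidableEq F]

/-- the product of values of a character at shifts -/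
noncomputable def tm (ψ : MulChar F ℂ) {r n : ℕ} (w : Fin n → F) (b c : Fin r → Fin n) (x : F) :
    ℂ :=
  (∏ i, ψ (x + w (b i))) * ∏ i, (starRingEnd ℂ) (ψ (x + w (c i)))

theorem norm_char_le (ψ : MulChar F ℂ) (x : F) : ‖ψ x‖ ≤ 1 := by
  by_cases hx : x = 0
  · rw [hx, MulChar.map_zero, norm_zero]
    exact zero_le_one
  · have hu : IsUnit x := isUnit_iff_ne_zero.2 hx
    have h1 : ψ x ^ (Fintype.card F - 1) = 1 := by
      rw [← map_pow, FiniteField.pow_card_sub_one_eq_one x hx, map_one]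
    have h2 : Fintype.card F - 1 ≠ 0 := by
      have := Fintype.one_lt_card (α := F)
      omega
    exact (Complex.norm_eq_one_of_pow_eq_one h1 h2).le

theorem tm_norm_le (ψ : MulChar F ℂ) {r n : ℕ} (w : Fin n → F) (b c : Fin r → Fin n) (x : F) :
    ‖tm ψ w b c x‖ ≤ 1 := by
  unfold tm
  rw [norm_mul, norm_prod, norm_prod]
  refine mul_le_one₀ (prod_le_one (fun _ _ => norm_nonneg _) fun _ _ => norm_char_le ψ _)
    (prod_nonneg fun _ _ => norm_nonneg _) (prod_le_one (fun _ _ => norm_nonneg _) fun i _ => ?_)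
  rw [RCLike.norm_conj]
  exact norm_char_le ψ _

omit [Fintype F] in
open Classical in
theorem count_w {r n : ℕ} (w : Fin n → F) (hw : Function.Injective w) (b : Fin r → Fin n)
    (v : Fin n) :
    ∑ i, rootMultiplicity (-(w v)) (X + C (w (b i)) : F[X]) =
      (univ.filter fun i => ((b i : Fin n) : ℕ) = v).card := by
  rw [card_filter]
  refine sum_congr rfl fun i _ => ?_
  have e : (X + C (w (b i)) : F[X]) = X - C (-(w (b i))) := by
    rw [map_neg, sub_neg_eq_add]
  rw [e, rootMultiplicity_X_sub_C]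
  have h : -(w v) = -(w (b i)) ↔ ((b i : Fin n) : ℕ) = v := by
    rw [neg_inj]
    constructor
    · intro h
      rw [hw h]
    · intro h
      rw [Fin.ext h]
  by_cases hc : ((b i : Fin n) : ℕ) = v
  · rw [if_pos (h.2 hc), if_pos hc]
  · rw [if_neg (fun h' => hc (h.1 h')), if_neg hc]

/-- Weil's bound for the terms -/
theorem complete (ψ : MulChar F ℂ) (hψ : ψ ≠ 1) {r n : ℕ} (w : Fin n → F)
    (hw : Function.Injective w) (b c : Fin r → Fin n)
    (huniq : Uniq (fun i => (b i : ℕ)) (fun i => (c i : ℕ))) :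
    ‖∑ x : F, tm ψ w b c x‖ ≤ (2 * r) * Real.sqrt (Fintype.card F) := by
  classical
  set t := orderOf ψ with ht
  have hdvd : t ∣ Fintype.card F - 1 := MulChar.orderOf_dvd_card_sub_one (F := F) ψ
  have hcard := Fintype.one_lt_card (α := F)
  have ht0 : t ≠ 0 := by
    intro h0
    rw [h0, zero_dvd_iff] at hdvd
    omega
  have ht1 : t ≠ 1 := fun h1 => hψ (orderOf_eq_one_iff.1 h1)
  have ht2 : 2 ≤ t := by omega
  have hχt : ψ ^ t = 1 := pow_orderOf_eq_one ψ
  set P : F[X] := ∏ i, (X + C (w (b i))) with hP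
  set R : F[X] := ∏ i, (X + C (w (c i))) with hR
  have hPm : P.Monic := monic_prod_of_monic _ _ fun i _ => monic_X_add_C _
  have hRm : R.Monic := monic_prod_of_monic _ _ fun i _ => monic_X_add_C _
  have hF0 : P * R ^ (t - 1) ≠ 0 := (hPm.mul (hRm.pow _)).ne_zero
  have hPdeg : P.natDegree = r := by
    rw [hP, natDegree_prod_of_monic _ _ fun i _ => monic_X_add_C _,
      sum_congr rfl (fun i _ => natDegree_X_add_C (w (b i)))]
    simp
  have hRdeg : R.natDegree = r := by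
    rw [hR, natDegree_prod_of_monic _ _ fun i _ => monic_X_add_C _,
      sum_congr rfl (fun i _ => natDegree_X_add_C (w (c i)))]
    simp
  have hcop : Cop t (P * R ^ (t - 1)) := by
    obtain ⟨v, hv⟩ := huniq
    have hvB : v < n := by
      by_contra hcon
      have h1 : (univ.filter fun i => ((b i : Fin n) : ℕ) = v) = ∅ := by
        refine filter_false_of_mem fun i _ hi => ?_
        have := (b i).2
        omega
      have h2 : (univ.filter fun i => ((c i : Fin n) : ℕ) = v) = ∅ := by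
        refine filter_false_of_mem fun i _ hi => ?_
        have := (c i).2
        omega
      rw [h1, h2] at hv
      simp at hv
    refine ⟨-(w ⟨v, hvB⟩), ?_⟩
    have e2 : rootMultiplicity (-(w ⟨v, hvB⟩)) (P * R ^ (t - 1)) =
        (univ.filter fun i => ((b i : Fin n) : ℕ) = v).card +
          (t - 1) * (univ.filter fun i => ((c i : Fin n) : ℕ) = v).card := by
      rw [rootMultiplicity_mul hF0, csl_rm_pow R _ hRm.ne_zero, hP, hR,
        csl_rm_prod _ _ _ (fun i _ => (monic_X_add_C _).ne_zero),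
        csl_rm_prod _ _ _ (fun i _ => (monic_X_add_C _).ne_zero), count_w w hw b ⟨v, hvB⟩,
        count_w w hw c ⟨v, hvB⟩]
    rw [e2]
    have e3 : (univ.filter fun i => ((b i : Fin n) : ℕ) = v).card +
        (univ.filter fun i => ((c i : Fin n) : ℕ) = v).card = 1 := by
      convert hv
    rcases Nat.eq_zero_or_pos (univ.filter fun i => ((b i : Fin n) : ℕ) = v).card with h0 | h0
    · have h1 : (univ.filter fun i => ((c i : Fin n) : ℕ) = v).card = 1 := by omega
      rw [h0, h1, zero_add, mul_one]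
      have h2 : t = (t - 1) + 1 := by omega
      have h3 : Nat.Coprime (t - 1) ((t - 1) + 1) := by simp
      rwa [← h2] at h3
    · have h1 : (univ.filter fun i => ((c i : Fin n) : ℕ) = v).card = 0 := by omega
      have h2 : (univ.filter fun i => ((b i : Fin n) : ℕ) = v).card = 1 := by omega
      rw [h1, h2, mul_zero, add_zero]
      exact Nat.coprime_one_left t
  have hmain := weil t ht2 hdvd ψ hψ hχt P R hPm hRm hcop
  rw [hPdeg, hRdeg] at hmain
  have hsum : ∑ x : F, tm ψ w b c x =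
      ∑ x : F, ψ (P.eval x) * (starRingEnd ℂ) (ψ (R.eval x)) := by
    refine sum_congr rfl fun x _ => ?_
    unfold tm
    rw [hP, hR, eval_prod, eval_prod, map_prod, map_prod, map_prod]
    congr 1
    · refine prod_congr rfl fun i _ => ?_
      rw [eval_add, eval_X, eval_C]
    · refine prod_congr rfl fun i _ => ?_
      rw [eval_add, eval_X, eval_C]
  rw [hsum]
  refine hmain.trans (le_of_eq ?_)
  push_cast
  ring

/-- expansion of a moment over tuples -/
theorem moment_general {ι : Type} [Fintype ι] (r n : ℕ) (hr : 1 ≤ r) (g : ι → Fin n → ℂ)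
    (B₀ B₁ : ℝ) (hn : 0 ≤ B₀) (h1 : 0 ≤ B₁)
    (hB₀ : ∀ b c : Fin r → Fin n,
      ‖∑ z, (∏ i, g z (b i)) * ∏ i, (starRingEnd ℂ) (g z (c i))‖ ≤ B₀)
    (hB₁ : ∀ b c : Fin r → Fin n, Uniq (fun i => (b i : ℕ)) (fun i => (c i : ℕ)) →
      ‖∑ z, (∏ i, g z (b i)) * ∏ i, (starRingEnd ℂ) (g z (c i))‖ ≤ B₁) :
    ∑ z, ‖∑ j, g z j‖ ^ (2 * r) ≤
      (r : ℝ) ^ (2 * r) * (n : ℝ) ^ r * B₀ + (n : ℝ) ^ (2 * r) * B₁ := by
  classical
  have hexp : ∀ z : ι, ((‖∑ j, g z j‖ ^ (2 * r) : ℝ) : ℂ) =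
      ∑ u : (Fin r → Fin n) × (Fin r → Fin n),
        (∏ i, g z (u.1 i)) * ∏ i, (starRingEnd ℂ) (g z (u.2 i)) := by
    intro z
    set S : ℂ := ∑ j, g z j with hS
    have h1 : ((‖S‖ ^ (2 * r) : ℝ) : ℂ) = S ^ r * (starRingEnd ℂ) S ^ r := by
      rw [← mul_pow, Complex.mul_conj, Complex.normSq_eq_norm_sq, pow_mul]
      push_cast
      ring
    have h2 : S ^ r = ∑ b : Fin r → Fin n, ∏ i, g z (b i) := by
      rw [hS, ← Fin.prod_const, Finset.prod_univ_sum, Fintype.piFinset_univ]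
    have h3 : (starRingEnd ℂ) S ^ r = ∑ c : Fin r → Fin n, ∏ i, (starRingEnd ℂ) (g z (c i)) := by
      rw [hS, map_sum, ← Fin.prod_const, Finset.prod_univ_sum, Fintype.piFinset_univ]
    rw [h1, h2, h3, Finset.sum_mul_sum, ← Finset.univ_product_univ, Finset.sum_product]
  have hW : ((∑ z, ‖∑ j, g z j‖ ^ (2 * r) : ℝ) : ℂ) =
      ∑ u : (Fin r → Fin n) × (Fin r → Fin n),
        ∑ z, (∏ i, g z (u.1 i)) * ∏ i, (starRingEnd ℂ) (g z (u.2 i)) := by
    rw [Finset.sum_comm]
    rw [Complex.ofReal_sum]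
    exact Finset.sum_congr rfl fun z _ => hexp z
  have hW' : ∑ z, ‖∑ j, g z j‖ ^ (2 * r) ≤
      ∑ u : (Fin r → Fin n) × (Fin r → Fin n),
        ‖∑ z, (∏ i, g z (u.1 i)) * ∏ i, (starRingEnd ℂ) (g z (u.2 i))‖ := by
    have e : ∑ z, ‖∑ j, g z j‖ ^ (2 * r) = ‖((∑ z, ‖∑ j, g z j‖ ^ (2 * r) : ℝ) : ℂ)‖ := by
      rw [Complex.norm_real, Real.norm_of_nonneg]
      exact Finset.sum_nonneg fun z _ => by positivity
    rw [e, hW]
    exact norm_sum_le _ _
  refine hW'.trans ?_
  rw [← Finset.sum_filter_add_sum_filter_not Finset.univ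
    (fun u : (Fin r → Fin n) × (Fin r → Fin n) =>
      ¬ Uniq (fun i => (u.1 i : ℕ)) (fun i => (u.2 i : ℕ)))]
  refine add_le_add ?_ ?_
  · have h1 : ∀ u ∈ Finset.univ.filter (fun u : (Fin r → Fin n) × (Fin r → Fin n) =>
        ¬ Uniq (fun i => (u.1 i : ℕ)) (fun i => (u.2 i : ℕ))),
        ‖∑ z, (∏ i, g z (u.1 i)) * ∏ i, (starRingEnd ℂ) (g z (u.2 i))‖ ≤ B₀ :=
      fun u _ => hB₀ u.1 u.2
    refine (Finset.sum_le_card_nsmul _ _ _ h1).trans ?_
    rw [nsmul_eq_mul]
    have h2 : (((Finset.univ.filter (fun u : (Fin r → Fin n) × (Fin r → Fin n) =>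
        ¬ Uniq (fun i => (u.1 i : ℕ)) (fun i => (u.2 i : ℕ)))).card : ℕ) : ℝ) ≤
        (r : ℝ) ^ (2 * r) * (n : ℝ) ^ r := by
      exact_mod_cast tup r n hr
    exact mul_le_mul_of_nonneg_right h2 hn
  · have h1' : ∀ u ∈ Finset.univ.filter (fun u : (Fin r → Fin n) × (Fin r → Fin n) =>
        ¬ ¬ Uniq (fun i => (u.1 i : ℕ)) (fun i => (u.2 i : ℕ))),
        ‖∑ z, (∏ i, g z (u.1 i)) * ∏ i, (starRingEnd ℂ) (g z (u.2 i))‖ ≤ B₁ := by
      intro u hu
      rw [Finset.mem_filter] at hu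
      exact hB₁ u.1 u.2 (not_not.1 hu.2)
    refine (Finset.sum_le_card_nsmul _ _ _ h1').trans ?_
    rw [nsmul_eq_mul]
    have h2 : (((Finset.univ.filter (fun u : (Fin r → Fin n) × (Fin r → Fin n) =>
        ¬ ¬ Uniq (fun i => (u.1 i : ℕ)) (fun i => (u.2 i : ℕ)))).card : ℕ) : ℝ) ≤
        (n : ℝ) ^ (2 * r) := by
      have h3 := Finset.card_filter_le (Finset.univ : Finset ((Fin r → Fin n) × (Fin r → Fin n)))
        (fun u => ¬ ¬ Uniq (fun i => (u.1 i : ℕ)) (fun i => (u.2 i : ℕ)))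
      have h4 : (Finset.univ : Finset ((Fin r → Fin n) × (Fin r → Fin n))).card = n ^ (2 * r) := by
        rw [Finset.card_univ, Fintype.card_prod, Fintype.card_fun, Fintype.card_fin,
          Fintype.card_fin, two_mul, pow_add]
      rw [h4] at h3
      exact_mod_cast h3
    exact mul_le_mul_of_nonneg_right h2 h1

/-- the moment of a character over one finite field -/
theorem moment_one (ψ : MulChar F ℂ) (hψ : ψ ≠ 1) (r n : ℕ) (hr : 1 ≤ r) (w : Fin n → F)
    (hw : Function.Injective w) :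
    ∑ x : F, ‖∑ j, ψ (x + w j)‖ ^ (2 * r) ≤
      (r : ℝ) ^ (2 * r) * (n : ℝ) ^ r * Fintype.card F +
        (n : ℝ) ^ (2 * r) * ((2 * r) * Real.sqrt (Fintype.card F)) := by
  refine moment_general r n hr (fun x j => ψ (x + w j)) (Fintype.card F)
    ((2 * r) * Real.sqrt (Fintype.card F)) (by positivity) (by positivity) ?_ ?_
  · intro b c
    refine (norm_sum_le _ _).trans ?_
    calc ∑ x : F, ‖(∏ i, ψ (x + w (b i))) * ∏ i, (starRingEnd ℂ) (ψ (x + w (c i)))‖
        ≤ ∑ _x : F, (1 : ℝ) := Finset.sum_le_sum fun x _ => tm_norm_le ψ w b c x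
      _ = Fintype.card F := by simp
  · intro b c hu
    exact complete ψ hψ w hw b c hu

/-- the moment of a two-point correlation -/
theorem moment_two (ψ : MulChar F ℂ) (hψ : ψ ≠ 1) (r n : ℕ) (hr : 1 ≤ r) (w : Fin n → F)
    (hw : Function.Injective w) :
    ∑ z : F × F, ‖∑ j, ψ (z.1 + w j) * ψ (z.2 + w j)‖ ^ (2 * r) ≤
      (r : ℝ) ^ (2 * r) * (n : ℝ) ^ r * (Fintype.card F : ℝ) ^ 2 +
        (n : ℝ) ^ (2 * r) * ((2 * r) ^ 2 * Fintype.card F) := by
  have key : ∀ b c : Fin r → Fin n,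
      ∑ z : F × F, (∏ i, (ψ (z.1 + w (b i)) * ψ (z.2 + w (b i)))) *
        ∏ i, (starRingEnd ℂ) (ψ (z.1 + w (c i)) * ψ (z.2 + w (c i))) =
      (∑ x : F, tm ψ w b c x) ^ 2 := by
    intro b c
    rw [pow_two, Finset.sum_mul_sum, ← Finset.univ_product_univ, Finset.sum_product]
    refine Finset.sum_congr rfl fun x _ => Finset.sum_congr rfl fun y _ => ?_
    unfold tm
    simp only [map_mul, Finset.prod_mul_distrib]
    ring
  refine moment_general r n hr (fun z : F × F => fun j => ψ (z.1 + w j) * ψ (z.2 + w j))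
    ((Fintype.card F : ℝ) ^ 2) ((2 * r) ^ 2 * Fintype.card F) (by positivity) (by positivity) ?_ ?_
  · intro b c
    rw [key b c, norm_pow]
    refine pow_le_pow_left₀ (norm_nonneg _) ?_ 2
    refine (norm_sum_le _ _).trans ?_
    calc ∑ x : F, ‖tm ψ w b c x‖ ≤ ∑ _x : F, (1 : ℝ) :=
          Finset.sum_le_sum fun x _ => tm_norm_le ψ w b c x
      _ = Fintype.card F := by simp
  · intro b c hu
    rw [key b c, norm_pow]
    calc ‖∑ x : F, tm ψ w b c x‖ ^ 2 ≤ ((2 * r) * Real.sqrt (Fintype.card F)) ^ 2 :=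
          pow_le_pow_left₀ (norm_nonneg _) (complete ψ hψ w hw b c hu) 2
      _ = (2 * r) ^ 2 * Fintype.card F := by
          rw [mul_pow, Real.sq_sqrt (Nat.cast_nonneg _)]

end Pool.Agent.H36.QI
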