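import Pool.Agent.H36.QI.Long

/-! Quadratic images of intervals. -/

set_option autoImplicit false

namespace Pool.Agent.H36.QI

open Finset

theorem sum_Ioc_int {β : Type} [AddCommMonoid β] (M : ℤ) (N : ℕ) (g : ℤ → β) :
    ∑ n ∈ Ioc M (M + N), g n = ∑ i ∈ range N, g (M + 1 + i) := by
  symm
  refine Finset.sum_bij (fun i _ => M + 1 + (i : ℤ)) ?_ ?_ ?_ ?_
  · intro i hi
    rw [mem_range] at hi
    rw [mem_Ioc]
    omega
  · intro i _ j _ hij
    omega
  · intro n hn
    rw [mem_Ioc] at hn
    refine ⟨(n - M - 1).toNat, ?_, ?_⟩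
    · rw [mem_range]
      omega
    · omega
  · intro i _
    rfl

/-- the interval version -/
theorem quad (ε : ℝ) (hε : 0 < ε) : ∃ δ : ℝ, 0 < δ ∧ ∃ p₀ : ℕ, ∀ p : ℕ, p₀ ≤ p →
    ∀ [Fact p.Prime] (χ : MulChar (ZMod p) ℂ), χ ≠ 1 → ∀ (α β γ : ZMod p), α ≠ 0 →
    ∀ (M : ℤ) (N : ℕ) (B : Finset (ZMod p)),
    (p : ℝ) ^ ε ≤ B.card → (p : ℝ) ^ (1 + ε) ≤ (N : ℝ) ^ 2 * B.card →
    ∑ b ∈ B, ‖∑ n ∈ Ioc M (M + N), χ (α * (n : ZMod p) ^ 2 + β * n + γ + b)‖ ≤
      (p : ℝ) ^ (-δ) * (N * B.card) := by
  obtain ⟨δ, hδ, p₀, h0⟩ := long ε hε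
  refine ⟨δ, hδ, max p₀ 3, ?_⟩
  intro p hp hfact χ hχ α β γ hα M N B hB hNB
  have hp3 : 3 ≤ p := (le_max_right _ _).trans hp
  have h2 : (2 : ZMod p) ≠ 0 := by
    intro h0
    have : ((2 : ℕ) : ZMod p) = 0 := by exact_mod_cast h0
    rw [ZMod.natCast_eq_zero_iff] at this
    have h3 := Nat.le_of_dvd (by norm_num) this
    omega
  set h : ZMod p := β / (2 * α) with hh
  let ψ : ZMod p → ZMod p := fun b => (γ + b) / α - h ^ 2
  have hψ : Function.Injective ψ := by
    intro b b' hb
    simp only [ψ] at hb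
    have h3 : (γ + b) / α = (γ + b') / α := by linear_combination hb
    rw [div_left_inj' hα] at h3
    exact add_left_cancel h3
  have key : ∀ b : ZMod p, ‖∑ n ∈ Ioc M (M + N), χ (α * (n : ZMod p) ^ 2 + β * n + γ + b)‖ ≤
      ‖SS N χ (((M + 1 : ℤ) : ZMod p) + h) (ψ b)‖ := by
    intro b
    have e : ∑ n ∈ Ioc M (M + N), χ (α * (n : ZMod p) ^ 2 + β * n + γ + b) =
        χ α * SS N χ (((M + 1 : ℤ) : ZMod p) + h) (ψ b) := by
      rw [sum_Ioc_int]
      unfold SS
      rw [mul_sum]
      refine sum_congr rfl fun i _ => ?_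
      rw [← map_mul]
      congr 1
      simp only [ψ, hh]
      push_cast
      field_simp
      ring
    rw [e, norm_mul]
    exact mul_le_of_le_one_left (norm_nonneg _) (norm_char_le χ α)
  have hcard : (B.map ⟨ψ, hψ⟩).card = B.card := card_map _
  have h4 := h0 p ((le_max_left _ _).trans hp) χ hχ (((M + 1 : ℤ) : ZMod p) + h)
    (B.map ⟨ψ, hψ⟩) N (by rw [hcard]; exact hB) (by rw [hcard]; exact hNB)
  rw [hcard, sum_map] at h4
  simp only [Function.Embedding.coeFn_mk] at h4
  exact (sum_le_sum fun b _ => key b).trans h4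

/-- a quadratic image of an interval is the injective image of a shorter interval -/
theorem shrink {p : ℕ} [Fact p.Prime] (f : ℤ → ZMod p) (k : ZMod p)
    (hf : ∀ n m : ℤ, f n = f m ↔ ((n : ZMod p) = m ∨ (n : ZMod p) + m = k)) :
    ∀ (N : ℕ) (M : ℤ), N ≤ p → ∃ (M' : ℤ) (N' : ℕ), N' ≤ p ∧
      (Ioc M' (M' + N')).image f = (Ioc M (M + N)).image f ∧
      Set.InjOn f (Ioc M' (M' + N') : Finset ℤ) := by
  intro N
  induction N with
  | zero =>
    intro M hN
    refine ⟨M, 0, hN, rfl, ?_⟩
    intro a ha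
    rw [Finset.mem_coe, mem_Ioc] at ha
    push_cast at ha
    omega
  | succ N ih =>
    intro M hN
    by_cases hinj : Set.InjOn f (Ioc M (M + (N + 1 : ℕ)) : Finset ℤ)
    · exact ⟨M, N + 1, hN, rfl, hinj⟩
    · -- there are twins
      have h1 : ∃ n m : ℤ, n < m ∧ M < n ∧ m ≤ M + (N + 1 : ℕ) ∧ f n = f m := by
        unfold Set.InjOn at hinj
        push Not at hinj
        obtain ⟨a, ha, b, hb, hab, hne⟩ := hinj
        rw [Finset.mem_coe, mem_Ioc] at ha hb
        rcases lt_or_gt_of_ne hne with hlt | hlt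
        · exact ⟨a, b, hlt, ha.1, hb.2, hab⟩
        · exact ⟨b, a, hlt, hb.1, ha.2, hab.symm⟩
      obtain ⟨n, m, hnm, hn, hm, hfe⟩ := h1
      have hk : (n : ZMod p) + m = k := by
        rcases (hf n m).1 hfe with h2 | h2
        · exfalso
          rw [ZMod.intCast_eq_intCast_iff_dvd_sub] at h2
          have h3 := Int.le_of_dvd (by omega) h2
          push_cast at hm
          omega
        · exact h2
      have hrefl : ∀ x : ℤ, f x = f (n + m - x) := by
        intro x
        rw [hf]
        right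
        push_cast
        rw [← hk]
        ring
      by_cases hc : n + m - (M + 1) ≤ M + (N + 1 : ℕ)
      · -- drop the first element
        obtain ⟨M', N', a1, a2, a3⟩ := ih (M + 1) (by omega)
        refine ⟨M', N', a1, ?_, a3⟩
        rw [a2]
        refine Finset.Subset.antisymm ?_ ?_
        · intro x hx
          rw [mem_image] at hx ⊢
          obtain ⟨z, hz, rfl⟩ := hx
          rw [mem_Ioc] at hz
          refine ⟨z, ?_, rfl⟩
          rw [mem_Ioc]
          push_cast
          omega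
        · intro x hx
          rw [mem_image] at hx ⊢
          obtain ⟨z, hz, rfl⟩ := hx
          rw [mem_Ioc] at hz
          push_cast at hz hc
          by_cases hz1 : z = M + 1
          · refine ⟨n + m - z, ?_, (hrefl z).symm⟩
            rw [mem_Ioc]
            omega
          · refine ⟨z, ?_, rfl⟩
            rw [mem_Ioc]
            omega
      · -- drop the last element
        obtain ⟨M', N', a1, a2, a3⟩ := ih M (by omega)
        refine ⟨M', N', a1, ?_, a3⟩
        rw [a2]
        push_cast at hm hc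
        refine Finset.Subset.antisymm ?_ ?_
        · intro x hx
          rw [mem_image] at hx ⊢
          obtain ⟨z, hz, rfl⟩ := hx
          rw [mem_Ioc] at hz
          refine ⟨z, ?_, rfl⟩
          rw [mem_Ioc]
          push_cast
          omega
        · intro x hx
          rw [mem_image] at hx ⊢
          obtain ⟨z, hz, rfl⟩ := hx
          rw [mem_Ioc] at hz
          push_cast at hz
          by_cases hz1 : z = M + (N + 1)
          · refine ⟨n + m - z, ?_, (hrefl z).symm⟩
            rw [mem_Ioc]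
            omega
          · refine ⟨z, ?_, rfl⟩
            rw [mem_Ioc]
            omega

theorem quad_eq {p : ℕ} [Fact p.Prime] (α β γ : ZMod p) (hα : α ≠ 0)
    (n m : ℤ) :
    (α * (n : ZMod p) ^ 2 + β * n + γ = α * (m : ZMod p) ^ 2 + β * m + γ) ↔
      ((n : ZMod p) = m ∨ (n : ZMod p) + m = -(β / α)) := by
  have e : (α * (n : ZMod p) ^ 2 + β * n + γ) - (α * (m : ZMod p) ^ 2 + β * m + γ) =
      α * (((n : ZMod p) - m) * ((n : ZMod p) + m - (-(β / α)))) := by
    field_simp
    ring
  rw [← sub_eq_zero, e, mul_eq_zero, mul_eq_zero, sub_eq_zero, sub_eq_zero]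
  constructor
  · rintro (h | h | h)
    · exact absurd h hα
    · exact Or.inl h
    · exact Or.inr h
  · rintro (h | h)
    · exact Or.inr (Or.inl h)
    · exact Or.inr (Or.inr h)

end Pool.Agent.H36.QI
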