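import Pool.Agent.H36.QI.Core
import Pool.Graph.R_seed8.H510R2.Div

/-! Choice of the parameters. -/

set_option autoImplicit false

namespace Pool.Agent.H36.QI

open Finset

/-- intervals of length at most the square root of `p` -/
theorem short (ε : ℝ) (hε : 0 < ε) : ∃ δ : ℝ, 0 < δ ∧ ∃ p₀ : ℕ, ∀ p : ℕ, p₀ ≤ p →
    ∀ [Fact p.Prime] (χ : MulChar (ZMod p) ℂ), χ ≠ 1 → ∀ (h : ZMod p) (B : Finset (ZMod p))
    (N : ℕ), N * N ≤ p → (p : ℝ) ^ (1 + ε) ≤ (N : ℝ) ^ 2 * B.card →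
    ∑ b ∈ B, ‖SS N χ h b‖ ≤ (p : ℝ) ^ (-δ) * (N * B.card) := by
  obtain ⟨C, hC0, hC⟩ := Pool.Agent.H510R2.divisor_bound (ε / 4) (by positivity)
  obtain ⟨r, hr⟩ := exists_nat_gt (8 / ε + 1)
  have hr1 : 1 ≤ r := by
    have : (1 : ℝ) < r := by
      have : 0 < 8 / ε := by positivity
      linarith
    have : 1 < r := by exact_mod_cast this
    omega
  have hr0 : (0 : ℝ) < r := by exact_mod_cast hr1
  have hrε : 1 / (r : ℝ) ≤ ε / 8 := by
    rw [div_le_div_iff₀ hr0 (by norm_num)]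
    have h1 : 8 / ε < r := by linarith
    rw [div_lt_iff₀ hε] at h1
    linarith
  set K : ℝ := 16 * (C + 1) * ((r : ℝ) ^ (2 * r) + 4 * r ^ 2) with hK
  have hK1 : 1 ≤ K := by
    have h1 : (1 : ℝ) ≤ r := by exact_mod_cast hr1
    have h2 : (1 : ℝ) ≤ (r : ℝ) ^ (2 * r) := one_le_pow₀ h1
    have h3 : (0 : ℝ) ≤ 4 * (r : ℝ) ^ 2 := by positivity
    have h4 : (1 : ℝ) ≤ (r : ℝ) ^ (2 * r) + 4 * r ^ 2 := by linarith
    have h5 : (1 : ℝ) ≤ 16 * (C + 1) := by linarith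
    calc (1 : ℝ) = 1 * 1 := by ring
      _ ≤ K := mul_le_mul h5 h4 zero_le_one (by positivity)
  -- the saving
  set δ : ℝ := ε / (8 * r) with hδ
  have hδ0 : 0 < δ := by positivity
  obtain ⟨P, hP⟩ := exists_nat_gt ((K + 4) ^ (1 / δ) + 3)
  refine ⟨δ, hδ0, P, ?_⟩
  intro p hpP hfact χ hχ h B N hN hNB
  have hpp : p.Prime := hfact.out
  have hpR : (P : ℝ) ≤ p := by exact_mod_cast hpP
  have hKp : (K + 4) ^ (1 / δ) ≤ (p : ℝ) := by linarith
  have hp3 : (3 : ℝ) < p := by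
    have : 0 ≤ (K + 4) ^ (1 / δ) := by positivity
    linarith
  have hp3' : 3 < p := by exact_mod_cast hp3
  have hp2 : p ≠ 2 := by omega
  have hp1 : (1 : ℝ) ≤ p := by linarith
  have hp0 : (0 : ℝ) < p := by linarith
  have hBp : (B.card : ℝ) ≤ p := by
    have := Finset.card_le_univ B
    rw [ZMod.card] at this
    exact_mod_cast this
  have hN2 : (N : ℝ) ^ 2 ≤ p := by
    have : ((N * N : ℕ) : ℝ) ≤ p := by exact_mod_cast hN
    rw [pow_two]
    push_cast at this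
    exact this
  have hNB0 : (0 : ℝ) < (N : ℝ) ^ 2 * B.card := lt_of_lt_of_le (by positivity) hNB
  have hB0 : 0 < B.card := by
    rcases Nat.eq_zero_or_pos B.card with h0 | h0
    · rw [h0] at hNB0
      simp at hNB0
    · exact h0
  have hN0 : 0 < N := by
    rcases Nat.eq_zero_or_pos N with h0 | h0
    · rw [h0] at hNB0
      simp at hNB0
    · exact h0
  have hB0' : (0 : ℝ) < B.card := by exact_mod_cast hB0
  have hN0' : (0 : ℝ) < N := by exact_mod_cast hN0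
  -- the length is not too small
  have hNlow : (p : ℝ) ^ (ε / 2) ≤ N := by
    have h1 : (p : ℝ) ^ ε * p ≤ (N : ℝ) ^ 2 * p := by
      calc (p : ℝ) ^ ε * p = (p : ℝ) ^ (1 + ε) := by
            rw [add_comm, Real.rpow_add hp0, Real.rpow_one]
        _ ≤ (N : ℝ) ^ 2 * B.card := hNB
        _ ≤ (N : ℝ) ^ 2 * p := mul_le_mul_of_nonneg_left hBp (by positivity)
    have h2 : (p : ℝ) ^ ε ≤ (N : ℝ) ^ 2 := le_of_mul_le_mul_right h1 hp0
    have h3 : ((p : ℝ) ^ (ε / 2)) ^ 2 = (p : ℝ) ^ ε := by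
      rw [← Real.rpow_natCast, ← Real.rpow_mul hp0.le]
      congr 1
      push_cast
      ring
    rw [← h3] at h2
    exact le_of_pow_le_pow_left₀ (by norm_num) hN0'.le h2
  -- the number of inner shifts
  set V : ℕ := ⌈(p : ℝ) ^ (1 / (r : ℝ))⌉₊ with hV
  have hx1 : (1 : ℝ) ≤ (p : ℝ) ^ (1 / (r : ℝ)) := Real.one_le_rpow hp1 (by positivity)
  have hV1 : 1 ≤ V := by
    rw [hV]
    exact Nat.one_le_iff_ne_zero.2 (Nat.ceil_pos.2 (by linarith)).ne'
  have hV2 : (V : ℝ) ≤ 2 * (p : ℝ) ^ (1 / (r : ℝ)) := by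
    have := (Nat.ceil_lt_add_one (a := (p : ℝ) ^ (1 / (r : ℝ))) (by positivity)).le
    linarith
  have hVp : V ≤ p := by
    rw [hV]
    refine Nat.ceil_le.2 ?_
    calc (p : ℝ) ^ (1 / (r : ℝ)) ≤ (p : ℝ) ^ (1 : ℝ) := by
          refine Real.rpow_le_rpow_of_exponent_le hp1 ?_
          rw [div_le_one hr0]
          exact_mod_cast hr1
      _ = p := Real.rpow_one _
  have hVr : p ≤ V ^ r := by
    have h1 : (p : ℝ) ^ (1 / (r : ℝ)) ≤ V := Nat.le_ceil _
    have h2 : ((p : ℝ) ^ (1 / (r : ℝ))) ^ r ≤ (V : ℝ) ^ r := pow_le_pow_left₀ (by positivity) h1 r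
    rw [← Real.rpow_natCast ((p : ℝ) ^ (1 / (r : ℝ))), ← Real.rpow_mul hp0.le,
      one_div_mul_cancel hr0.ne', Real.rpow_one] at h2
    exact_mod_cast h2
  -- the number of multipliers
  set y : ℝ := N * (p : ℝ) ^ (-(ε / 4)) with hy
  have hy1 : 1 ≤ y := by
    have h1 : (p : ℝ) ^ (ε / 2) * (p : ℝ) ^ (-(ε / 4)) ≤ y :=
      mul_le_mul_of_nonneg_right hNlow (by positivity)
    rw [← Real.rpow_add hp0] at h1
    refine le_trans ?_ h1
    exact Real.one_le_rpow hp1 (by linarith)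
  have hyN : y ≤ N := by
    have : (p : ℝ) ^ (-(ε / 4)) ≤ 1 := Real.rpow_le_one_of_one_le_of_nonpos hp1 (by linarith)
    calc y ≤ N * 1 := mul_le_mul_of_nonneg_left this hN0'.le
      _ = N := mul_one _
  set U : ℕ := ⌊y⌋₊ with hU
  have hU1 : 1 ≤ U := Nat.le_floor (by simpa using hy1)
  have hUy : (U : ℝ) ≤ y := Nat.floor_le (by linarith)
  have hUN : U ≤ N := by
    have : (U : ℝ) ≤ N := hUy.trans hyN
    exact_mod_cast this
  have hUlow : y / 2 ≤ U := by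
    have h1 := Nat.lt_floor_add_one y
    have h2 : (1 : ℝ) ≤ U := by exact_mod_cast hU1
    linarith
  have hNU : N * U ≤ p := (Nat.mul_le_mul_left _ hUN).trans hN
  have hUp : U < p := by
    by_contra hcon
    push Not at hcon
    have h1 : p * p ≤ N * U := Nat.mul_le_mul (hcon.trans hUN) hcon
    nlinarith
  -- the divisors
  set D : ℕ := ⌈C * (p : ℝ) ^ (ε / 4)⌉₊ with hD
  have hpe : (1 : ℝ) ≤ (p : ℝ) ^ (ε / 4) := Real.one_le_rpow hp1 (by positivity)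
  have hD1 : 1 ≤ D := by
    rw [hD]
    exact Nat.one_le_iff_ne_zero.2 (Nat.ceil_pos.2 (by positivity)).ne'
  have hD2 : (D : ℝ) ≤ (C + 1) * (p : ℝ) ^ (ε / 4) := by
    have := (Nat.ceil_lt_add_one (a := C * (p : ℝ) ^ (ε / 4)) (by positivity)).le
    calc (D : ℝ) ≤ C * (p : ℝ) ^ (ε / 4) + 1 := this
      _ ≤ (C + 1) * (p : ℝ) ^ (ε / 4) := by nlinarith
  have hDd : ∀ m : ℕ, 1 ≤ m → m ≤ N * U → m.divisors.card ≤ D := by
    intro m hm hmN
    have h1 := hC m hm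
    have h2 : (m : ℝ) ^ (ε / 4) ≤ (p : ℝ) ^ (ε / 4) := by
      refine Real.rpow_le_rpow (by positivity) ?_ (by positivity)
      exact_mod_cast hmN.trans hNU
    have h3 : (m.divisors.card : ℝ) ≤ D :=
      (h1.trans (mul_le_mul_of_nonneg_left h2 hC0.le)).trans (Nat.le_ceil _)
    exact_mod_cast h3
  -- the main estimate
  set X : ℝ := K * (p : ℝ) ^ (-(ε / (4 * r))) with hX
  have hX0 : 0 ≤ X := by positivity
  have hXr : K * (p : ℝ) ^ (-(ε / 2)) ≤ X ^ (2 * r) := by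
    rw [hX, mul_pow]
    have h1 : ((p : ℝ) ^ (-(ε / (4 * r)))) ^ (2 * r) = (p : ℝ) ^ (-(ε / 2)) := by
      rw [← Real.rpow_natCast, ← Real.rpow_mul hp0.le]
      congr 1
      push_cast
      field_simp
      ring
    rw [h1]
    refine mul_le_mul_of_nonneg_right ?_ (by positivity)
    exact le_self_pow₀ hK1 (by omega)
  have hlow : (p : ℝ) ^ (1 + 3 * ε / 4) / 2 ≤ (B.card : ℝ) * (N * U) := by
    have h1 : (p : ℝ) ^ (1 + ε) * (p : ℝ) ^ (-(ε / 4)) ≤
        ((N : ℝ) ^ 2 * B.card) * (p : ℝ) ^ (-(ε / 4)) :=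
      mul_le_mul_of_nonneg_right hNB (by positivity)
    rw [← Real.rpow_add hp0] at h1
    have h2 : (1 + ε) + -(ε / 4) = 1 + 3 * ε / 4 := by ring
    rw [h2] at h1
    have h3 : ((N : ℝ) ^ 2 * B.card) * (p : ℝ) ^ (-(ε / 4)) = B.card * (N * y) := by
      rw [hy]
      ring
    rw [h3] at h1
    have h4 : (B.card : ℝ) * (N * (y / 2)) ≤ B.card * (N * U) := by gcongr
    linarith
  have hmain : 8 * D * ((r : ℝ) ^ (2 * r) + 4 * r ^ 2) * p ≤
      X ^ (2 * r) * (B.card * (N * U)) := by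
    set R : ℝ := (r : ℝ) ^ (2 * r) + 4 * r ^ 2 with hR
    have hR0 : 0 ≤ R := by positivity
    calc 8 * D * R * p ≤ 8 * ((C + 1) * (p : ℝ) ^ (ε / 4)) * R * p := by gcongr
      _ = K * (p : ℝ) ^ (-(ε / 2)) * ((p : ℝ) ^ (1 + 3 * ε / 4) / 2) := by
          have e1 : (p : ℝ) ^ (-(ε / 2)) * (p : ℝ) ^ (1 + 3 * ε / 4) = (p : ℝ) ^ (ε / 4) * p := by
            rw [← Real.rpow_add hp0, ← Real.rpow_add_one hp0.ne']
            congr 1
            ring
          rw [hK]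
          linear_combination (-8 * (C + 1) * R) * e1
      _ ≤ X ^ (2 * r) * (B.card * (N * U)) := by
          refine mul_le_mul hXr hlow (by positivity) (by positivity)
  have hfin := core hp2 χ hχ h B hB0 N U V r D hr1 hU1 hUN hNU hUp hV1 hVp hVr hD1 hDd X hX0 hmain
  refine hfin.trans ?_
  -- the error term
  have hUV : (U : ℝ) * V ≤ 2 * N * (p : ℝ) ^ (-(ε / 8)) := by
    calc (U : ℝ) * V ≤ (N * (p : ℝ) ^ (-(ε / 4))) * (2 * (p : ℝ) ^ (1 / (r : ℝ))) :=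
          mul_le_mul hUy hV2 (by positivity) (by positivity)
      _ = 2 * N * ((p : ℝ) ^ (-(ε / 4)) * (p : ℝ) ^ (1 / (r : ℝ))) := by ring
      _ ≤ 2 * N * (p : ℝ) ^ (-(ε / 8)) := by
          refine mul_le_mul_of_nonneg_left ?_ (by positivity)
          rw [← Real.rpow_add hp0]
          exact Real.rpow_le_rpow_of_exponent_le hp1 (by linarith)
  have hexp : (p : ℝ) ^ (-(ε / 8)) ≤ (p : ℝ) ^ (-(ε / (4 * r))) := by
    refine Real.rpow_le_rpow_of_exponent_le hp1 ?_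
    have h3 : (1 : ℝ) < r := by
      have : 0 < 8 / ε := by positivity
      linarith
    have h4 : 1 < r := by exact_mod_cast h3
    have h5 : (2 : ℝ) ≤ r := by exact_mod_cast h4
    rw [neg_le_neg_iff]
    exact div_le_div_of_nonneg_left hε.le (by norm_num) (by linarith)
  have hδ2 : (p : ℝ) ^ (-(ε / (4 * r))) = (p : ℝ) ^ (-δ) * (p : ℝ) ^ (-δ) := by
    rw [← Real.rpow_add hp0]
    congr 1
    rw [hδ]
    field_simp
    ring
  have hKδ : (K + 4) * (p : ℝ) ^ (-δ) ≤ 1 := by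
    have h1 : K + 4 ≤ (p : ℝ) ^ δ := by
      have h2 := Real.rpow_le_rpow (by positivity) hKp hδ0.le
      rw [← Real.rpow_mul (by positivity), one_div_mul_cancel hδ0.ne', Real.rpow_one] at h2
      exact h2
    calc (K + 4) * (p : ℝ) ^ (-δ) ≤ (p : ℝ) ^ δ * (p : ℝ) ^ (-δ) :=
          mul_le_mul_of_nonneg_right h1 (by positivity)
      _ = 1 := by rw [← Real.rpow_add hp0, add_neg_cancel, Real.rpow_zero]
  calc (B.card : ℝ) * N * X + 2 * (U * V) * B.card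
      ≤ (B.card : ℝ) * N * (K * (p : ℝ) ^ (-(ε / (4 * r)))) +
        2 * (2 * N * (p : ℝ) ^ (-(ε / (4 * r)))) * B.card := by
        have h7 : (U : ℝ) * V ≤ 2 * N * (p : ℝ) ^ (-(ε / (4 * r))) :=
          hUV.trans (mul_le_mul_of_nonneg_left hexp (by positivity))
        have h8 : 2 * ((U : ℝ) * V) * B.card ≤
            2 * (2 * N * (p : ℝ) ^ (-(ε / (4 * r)))) * B.card :=
          mul_le_mul_of_nonneg_right (mul_le_mul_of_nonneg_left h7 (by norm_num)) hB0'.le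
        linarith
    _ = ((K + 4) * (p : ℝ) ^ (-δ)) * ((p : ℝ) ^ (-δ) * (N * B.card)) := by
        rw [hδ2]
        ring
    _ ≤ 1 * ((p : ℝ) ^ (-δ) * (N * B.card)) :=
        mul_le_mul_of_nonneg_right hKδ (by positivity)
    _ = (p : ℝ) ^ (-δ) * (N * B.card) := one_mul _

end Pool.Agent.H36.QI
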