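import Pool.Agent.H36.QI.Mom

/-! The moment of the sums `∑ χ((x + j)² + y)` over all pairs `(x, y)`. -/

set_option autoImplicit false

namespace Pool.Agent.H36.QI

open Finset Polynomial Pool.Agent.H471R4.BW Pool.Agent.H435R3.Weil

variable {p : ℕ} [Fact p.Prime]

theorem cast_inj {n : ℕ} (hn : n ≤ p) :
    Function.Injective (fun j : Fin n => ((j : ℕ) : ZMod p)) := by
  intro i j hij
  simp only at hij
  rw [ZMod.natCast_eq_natCast_iff'] at hij
  rw [Nat.mod_eq_of_lt (i.2.trans_le hn), Nat.mod_eq_of_lt (j.2.trans_le hn)] at hij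
  exact Fin.ext hij

/-- the split case -/
theorem split (hp : p ≠ 2) (χ : MulChar (ZMod p) ℂ) (hχ : χ ≠ 1) (r n : ℕ) (hr : 1 ≤ r)
    (hn : n ≤ p) :
    ∑ q : ZMod p × ZMod p, ‖∑ j : Fin n, χ ((q.1 + ((j : ℕ) : ZMod p)) ^ 2 - q.2 ^ 2)‖ ^ (2 * r) ≤
      (r : ℝ) ^ (2 * r) * (n : ℝ) ^ r * (p : ℝ) ^ 2 + (n : ℝ) ^ (2 * r) * ((2 * r) ^ 2 * p) := by
  have h := moment_two χ hχ r n hr (fun j : Fin n => ((j : ℕ) : ZMod p)) (cast_inj hn)
  rw [ZMod.card] at h
  refine le_trans ?_ h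
  let φ : ZMod p × ZMod p → ZMod p × ZMod p := fun q => (q.1 - q.2, q.1 + q.2)
  have h2 : (2 : ZMod p) ≠ 0 := by
    intro h0
    have : ((2 : ℕ) : ZMod p) = 0 := by exact_mod_cast h0
    rw [ZMod.natCast_eq_zero_iff] at this
    have h3 := (Nat.prime_dvd_prime_iff_eq Fact.out Nat.prime_two).1 this
    exact hp h3
  have hφ : Function.Injective φ := by
    rintro ⟨a, b⟩ ⟨c, d⟩ hh
    simp only [φ, Prod.mk.injEq] at hh
    obtain ⟨e1, e2⟩ := hh
    have e3 : (2 : ZMod p) * a = 2 * c := by linear_combination e1 + e2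
    have e4 : (2 : ZMod p) * b = 2 * d := by linear_combination e2 - e1
    rw [mul_left_cancel₀ h2 e3, mul_left_cancel₀ h2 e4]
  have e : ∀ q : ZMod p × ZMod p, (∑ j : Fin n, χ ((q.1 + ((j : ℕ) : ZMod p)) ^ 2 - q.2 ^ 2)) =
      ∑ j : Fin n, χ ((φ q).1 + ((j : ℕ) : ZMod p)) * χ ((φ q).2 + ((j : ℕ) : ZMod p)) := by
    intro q
    refine sum_congr rfl fun j _ => ?_
    rw [← map_mul]
    congr 1
    simp only [φ]
    ring
  simp only [e]
  have h4 := Finset.sum_map (Finset.univ : Finset (ZMod p × ZMod p)) ⟨φ, hφ⟩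
    (fun z => ‖∑ j : Fin n, χ (z.1 + ((j : ℕ) : ZMod p)) * χ (z.2 + ((j : ℕ) : ZMod p))‖ ^ (2 * r))
  simp only [Function.Embedding.coeFn_mk] at h4
  rw [← h4]
  exact Finset.sum_le_sum_of_subset_of_nonneg (Finset.subset_univ _) fun _ _ _ => by positivity

/-- the nonsplit case -/
theorem nonsplit (hp : p ≠ 2) (χ : MulChar (ZMod p) ℂ) (hχ : χ ≠ 1) (η : ZMod p)
    (hη : ¬ IsSquare η) (r n : ℕ) (hr : 1 ≤ r) (hn : n ≤ p) :
    ∑ q : ZMod p × ZMod p,
      ‖∑ j : Fin n, χ ((q.1 + ((j : ℕ) : ZMod p)) ^ 2 - η * q.2 ^ 2)‖ ^ (2 * r) ≤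
      (r : ℝ) ^ (2 * r) * (n : ℝ) ^ r * (p : ℝ) ^ 2 + (n : ℝ) ^ (2 * r) * ((2 * r) ^ 2 * p) := by
  classical
  have hfact : Fact (∀ r : ZMod p, r ^ 2 ≠ η + 0 * r) := by
    refine ⟨fun r h => hη ⟨r, ?_⟩⟩
    rw [zero_mul, add_zero] at h
    rw [← h, pow_two]
  let K := QuadraticAlgebra (ZMod p) η 0
  let E : K ≃ ZMod p × ZMod p := QuadraticAlgebra.equivProd η 0
  let _ : Fintype K := Fintype.ofEquiv _ E.symm
  have hcard : Fintype.card K = p ^ 2 := by
    rw [Fintype.card_congr E, Fintype.card_prod, ZMod.card, pow_two]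
  let ψ : MulChar K ℂ :=
    { toFun := fun x => χ (QuadraticAlgebra.norm x)
      map_one' := by simp
      map_mul' := fun x y => by simp
      map_nonunit' := fun x hx => by
        have h0 : x = 0 := by
          by_contra h
          exact hx (isUnit_iff_ne_zero.2 h)
        rw [h0, QuadraticAlgebra.norm_zero]
        exact MulChar.map_zero χ }
  have hψa : ∀ x : K, ψ x = χ (QuadraticAlgebra.norm x) := fun x => rfl
  have h2 : (2 : ZMod p) ≠ 0 := by
    intro h0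
    have : ((2 : ℕ) : ZMod p) = 0 := by exact_mod_cast h0
    rw [ZMod.natCast_eq_zero_iff] at this
    have h3 := (Nat.prime_dvd_prime_iff_eq Fact.out Nat.prime_two).1 this
    exact hp h3
  have hη0 : η ≠ 0 := by
    rintro rfl
    exact hη ⟨0, by simp⟩
  have hψ : ψ ≠ 1 := by
    obtain ⟨u, hu⟩ := MulChar.ne_one_iff.1 hχ
    obtain ⟨a, b, hab⟩ : ∃ a b : ZMod p, a ^ 2 - η * b ^ 2 = u := by
      have hodd : Fintype.card (ZMod p) % 2 = 1 := by
        rw [ZMod.card]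
        exact (Fact.out : p.Prime).eq_two_or_odd.resolve_left hp
      have d1 : (X ^ 2 : (ZMod p)[X]).degree = 2 := by
        rw [degree_X_pow]
        rfl
      have d2 : (C (-η) * X ^ 2 - C (u : ZMod p) : (ZMod p)[X]).degree = 2 := by
        have e1 : (C (-η) * X ^ 2 : (ZMod p)[X]).degree = 2 := by
          rw [degree_C_mul_X_pow 2 (neg_ne_zero.2 hη0)]
          rfl
        rw [degree_sub_C]
        · exact e1
        · rw [e1]
          decide
      obtain ⟨a, b, h⟩ := FiniteField.exists_root_sum_quadratic d1 d2 hodd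
      refine ⟨a, b, ?_⟩
      simp only [eval_pow, eval_X, eval_sub, eval_mul, eval_C] at h
      linear_combination h
    intro h1
    apply hu
    have h3 : ψ (⟨a, b⟩ : K) = χ u := by
      rw [hψa, QuadraticAlgebra.norm_def]
      congr 1
      simp only
      linear_combination hab
    rw [← h3, h1, MulChar.one_apply]
    apply isUnit_iff_ne_zero.2
    intro h4
    have e1 : a = 0 := congrArg QuadraticAlgebra.re h4
    have e2 : b = 0 := congrArg QuadraticAlgebra.im h4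
    rw [e1, e2] at hab
    apply u.ne_zero
    rw [← hab]
    ring
  have hw : Function.Injective (fun j : Fin n => (⟨((j : ℕ) : ZMod p), 0⟩ : K)) := by
    intro i j hij
    apply cast_inj hn
    exact congrArg QuadraticAlgebra.re hij
  have h := moment_one ψ hψ r n hr _ hw
  rw [hcard] at h
  have e1 : ∑ q : ZMod p × ZMod p,
      ‖∑ j : Fin n, χ ((q.1 + ((j : ℕ) : ZMod p)) ^ 2 - η * q.2 ^ 2)‖ ^ (2 * r) =
      ∑ x : K, ‖∑ j : Fin n, ψ (x + (⟨((j : ℕ) : ZMod p), 0⟩ : K))‖ ^ (2 * r) := by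
    rw [← Equiv.sum_comp E]
    refine sum_congr rfl fun x _ => ?_
    congr 2
    refine sum_congr rfl fun j _ => ?_
    rw [hψa, QuadraticAlgebra.norm_def]
    congr 1
    have hre : (x + (⟨((j : ℕ) : ZMod p), 0⟩ : K)).re = x.re + ((j : ℕ) : ZMod p) := rfl
    have him : (x + (⟨((j : ℕ) : ZMod p), 0⟩ : K)).im = x.im + 0 := rfl
    rw [hre, him]
    simp only [E, QuadraticAlgebra.equivProd, Equiv.coe_fn_mk]
    ring
  rw [e1]
  refine h.trans ?_
  have hp0 : (0 : ℝ) ≤ p := Nat.cast_nonneg _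
  have hr1 : (1 : ℝ) ≤ r := by exact_mod_cast hr
  push_cast
  rw [Real.sqrt_sq hp0]
  have h5 : (2 * (r : ℝ)) * p ≤ (2 * r) ^ 2 * p := by
    refine mul_le_mul_of_nonneg_right ?_ hp0
    nlinarith
  have h6 : (0 : ℝ) ≤ (n : ℝ) ^ (2 * r) := by positivity
  exact add_le_add le_rfl (mul_le_mul_of_nonneg_left h5 h6)

theorem cover (hp : p ≠ 2) (η : ZMod p) (hη : ¬ IsSquare η) (y : ZMod p) :
    (∃ z, y = -z ^ 2) ∨ ∃ z, y = -(η * z ^ 2) := by
  have hη0 : η ≠ 0 := by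
    rintro rfl
    exact hη ⟨0, by simp⟩
  by_cases hy : IsSquare (-y)
  · left
    obtain ⟨z, hz⟩ := hy
    exact ⟨z, by linear_combination -hz⟩
  · right
    have hch : ringChar (ZMod p) ≠ 2 := by
      rwa [ZMod.ringChar_zmod_n]
    have h1 := (quadraticChar_neg_one_iff_not_isSquare (F := ZMod p)).2 hη
    have h2 := (quadraticChar_neg_one_iff_not_isSquare (F := ZMod p)).2 hy
    have h3 : quadraticChar (ZMod p) (-y * η) = 1 := by
      rw [map_mul, h1, h2]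
      norm_num
    have hy0 : -y ≠ 0 := by
      intro h
      rw [h] at hy
      exact hy ⟨0, by simp⟩
    obtain ⟨z, hz⟩ := (quadraticChar_one_iff_isSquare (mul_ne_zero hy0 hη0)).1 h3
    refine ⟨z / η, ?_⟩
    field_simp
    linear_combination -hz

/-- the moment over all pairs -/
theorem moment_quad (hp : p ≠ 2) (χ : MulChar (ZMod p) ℂ) (hχ : χ ≠ 1) (r n : ℕ) (hr : 1 ≤ r)
    (hn : n ≤ p) :
    ∑ q : ZMod p × ZMod p, ‖∑ j : Fin n, χ ((q.1 + ((j : ℕ) : ZMod p)) ^ 2 + q.2)‖ ^ (2 * r) ≤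
      2 * ((r : ℝ) ^ (2 * r) * (n : ℝ) ^ r * (p : ℝ) ^ 2 +
        (n : ℝ) ^ (2 * r) * ((2 * r) ^ 2 * p)) := by
  classical
  have hch : ringChar (ZMod p) ≠ 2 := by
    rwa [ZMod.ringChar_zmod_n]
  obtain ⟨η, hη⟩ := FiniteField.exists_nonsquare hch
  let f : ZMod p ⊕ ZMod p → ZMod p := Sum.elim (fun z => -z ^ 2) (fun z => -(η * z ^ 2))
  have hf : Function.Surjective f := by
    intro y
    rcases cover hp η hη y with ⟨z, hz⟩ | ⟨z, hz⟩
    · exact ⟨Sum.inl z, hz.symm⟩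
    · exact ⟨Sum.inr z, hz.symm⟩
  obtain ⟨φ, hφ⟩ := hf.hasRightInverse
  have hφi : Function.Injective φ := hφ.injective
  have key : ∀ g : ZMod p → ℝ, (∀ y, 0 ≤ g y) →
      ∑ y, g y ≤ ∑ z, g (-z ^ 2) + ∑ z, g (-(η * z ^ 2)) := by
    intro g hg
    have e1 : ∑ y, g y = ∑ y, g (f (φ y)) := sum_congr rfl fun y _ => by rw [hφ y]
    have e2 := Finset.sum_map (Finset.univ : Finset (ZMod p)) ⟨φ, hφi⟩ (fun w => g (f w))
    simp only [Function.Embedding.coeFn_mk] at e2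
    rw [e1, ← e2]
    refine (Finset.sum_le_sum_of_subset_of_nonneg (Finset.subset_univ _)
      fun _ _ _ => hg _).trans (le_of_eq ?_)
    rw [Fintype.sum_sum_type]
    rfl
  rw [Fintype.sum_prod_type]
  have h1 : ∀ x : ZMod p, ∑ y : ZMod p,
      ‖∑ j : Fin n, χ ((x + ((j : ℕ) : ZMod p)) ^ 2 + y)‖ ^ (2 * r) ≤
      ∑ z : ZMod p, ‖∑ j : Fin n, χ ((x + ((j : ℕ) : ZMod p)) ^ 2 - z ^ 2)‖ ^ (2 * r) +
      ∑ z : ZMod p, ‖∑ j : Fin n, χ ((x + ((j : ℕ) : ZMod p)) ^ 2 - η * z ^ 2)‖ ^ (2 * r) := by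
    intro x
    have := key (fun y => ‖∑ j : Fin n, χ ((x + ((j : ℕ) : ZMod p)) ^ 2 + y)‖ ^ (2 * r))
      (fun y => by positivity)
    simpa only [← sub_eq_add_neg] using this
  refine (Finset.sum_le_sum fun x _ => h1 x).trans ?_
  rw [Finset.sum_add_distrib]
  have h2 := split hp χ hχ r n hr hn
  have h3 := nonsplit hp χ hχ η hη r n hr hn
  rw [Fintype.sum_prod_type] at h2 h3
  simp only at h2 h3 ⊢
  linarith

end Pool.Agent.H36.QI
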